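import Mathlib

set_option autoImplicit false

/-!
# MP_05d08f_al, module HESS: a cyclic trace zero matrix is similar to one with a prescribed zero pattern

Let `κ : Fin n → B` be a word such that (adj) neighbouring letters differ and (unb) for every distance
`1 ≤ d < n` there is `i` with `κ i ≠ κ (i + d)`.  Then every `A` of trace `0` with a cyclic vector `v` is
similar to a matrix `H` with `H i j = 0` whenever `κ i = κ j` (in particular zero diagonal).

PROOF.  For `h : ℕ → ℕ → K` the monic polynomials `p_0 = 1`, `p_{k+1} = X p_k - ∑_{i ≤ k} C (h i k) p_i`.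
Changing one entry `h i₀ k₀` by `δ` does not change the coefficients of `X^e` of `p_n`, `e > n - L`,
`L = k₀ + 1 - i₀`, and changes the coefficient of `X^(n-L)` by `-δ`.  So by induction on `L` there is `h` with
`h i k = 0` for `κ i = κ k` and `p_n = χ` for every monic `χ` of degree `n` with trace coefficient zero.
Take `χ = A.charpoly`, and the basis `e_k = p_k(A) v`.
-/

namespace MLI

open Matrix Polynomial

variable {K : Type*} [Field K]

/-- The monic polynomials of a Hessenberg matrix. -/
private noncomputable def pp (h : ℕ → ℕ → K) : ℕ → K[X]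
  | 0 => 1
  | k + 1 => X * pp h k - ∑ i : Fin (k + 1), C (h i k) * pp h i
  decreasing_by
    · omega
    · exact i.isLt

private theorem pp_zero (h : ℕ → ℕ → K) : pp h 0 = 1 := by rw [pp]

private theorem pp_succ (h : ℕ → ℕ → K) (k : ℕ) :
    pp h (k + 1) = X * pp h k - ∑ i ∈ Finset.range (k + 1), C (h i k) * pp h i := by
  rw [pp, Finset.sum_range]

private theorem pp_coeff_succ (h : ℕ → ℕ → K) (k e : ℕ) :
    (pp h (k + 1)).coeff e = (X * pp h k).coeff e -
      ∑ i ∈ Finset.range (k + 1), h i k * (pp h i).coeff e := by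
  rw [pp_succ, coeff_sub, finsetSum_coeff]
  simp only [coeff_C_mul]

private theorem pp_monic (h : ℕ → ℕ → K) (k : ℕ) :
    (∀ e, k < e → (pp h k).coeff e = 0) ∧ (pp h k).coeff k = 1 := by
  induction k using Nat.strong_induction_on with
  | _ k ih =>
    rcases k with _ | k
    · rw [pp_zero]
      refine ⟨fun e he => ?_, by simp⟩
      rw [coeff_one, if_neg (by omega)]
    · refine ⟨fun e he => ?_, ?_⟩
      · obtain ⟨e, rfl⟩ : ∃ e', e = e' + 1 := ⟨e - 1, by omega⟩
        rw [pp_coeff_succ, coeff_X_mul, (ih k (by omega)).1 e (by omega), zero_sub, neg_eq_zero]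
        refine Finset.sum_eq_zero fun i hi => ?_
        rw [Finset.mem_range] at hi
        rw [(ih i hi).1 _ (by omega), mul_zero]
      · rw [pp_coeff_succ, coeff_X_mul, (ih k (by omega)).2, sub_eq_self]
        refine Finset.sum_eq_zero fun i hi => ?_
        rw [Finset.mem_range] at hi
        rw [(ih i hi).1 _ (by omega), mul_zero]

private theorem pp_change (h h' : ℕ → ℕ → K) (i₀ k₀ : ℕ) (δ : K) (hik : i₀ ≤ k₀)
    (h1 : ∀ i k, ¬ (i = i₀ ∧ k = k₀) → h' i k = h i k) (h2 : h' i₀ k₀ = h i₀ k₀ + δ) :
    (∀ j, j ≤ k₀ → pp h' j = pp h j) ∧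
    ∀ j, k₀ < j → (∀ e, j < e + (k₀ + 1 - i₀) → (pp h' j).coeff e = (pp h j).coeff e) ∧
      (∀ e, e + (k₀ + 1 - i₀) = j → (pp h' j).coeff e = (pp h j).coeff e - δ) := by
  have hA : ∀ j, j ≤ k₀ → pp h' j = pp h j := by
    intro j
    induction j using Nat.strong_induction_on with
    | _ j ih =>
      intro hj
      rcases j with _ | j
      · rw [pp_zero, pp_zero]
      · rw [pp_succ, pp_succ, ih j (by omega) (by omega)]
        congr 1
        refine Finset.sum_congr rfl fun i hi => ?_
        rw [Finset.mem_range] at hi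
        rw [ih i hi (by omega), h1 i j (by omega)]
  refine ⟨hA, fun j => ?_⟩
  induction j using Nat.strong_induction_on with
  | _ j ih =>
    intro hj
    obtain ⟨j, rfl⟩ : ∃ j', j = j' + 1 := ⟨j - 1, by omega⟩
    rcases Nat.lt_or_ge k₀ j with hj2 | hj2
    · -- `j > k₀`
      have hcongr : ∀ e, (∀ i, i ≤ j → k₀ < i → i < e + (k₀ + 1 - i₀)) →
          ∑ i ∈ Finset.range (j + 1), h' i j * (pp h' i).coeff e =
            ∑ i ∈ Finset.range (j + 1), h i j * (pp h i).coeff e := by
        intro e he
        refine Finset.sum_congr rfl fun i hi => ?_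
        rw [Finset.mem_range] at hi
        rw [h1 i j (by omega)]
        rcases Nat.lt_or_ge k₀ i with hi2 | hi2
        · rw [(ih i hi hi2).1 e (he i (by omega) hi2)]
        · rw [hA i hi2]
      refine ⟨fun e he => ?_, fun e he => ?_⟩
      · rw [pp_coeff_succ, pp_coeff_succ, hcongr e (fun i _ _ => by omega)]
        congr 1
        rcases e with _ | e
        · rw [coeff_X_mul_zero, coeff_X_mul_zero]
        · rw [coeff_X_mul, coeff_X_mul]
          exact (ih j (by omega) hj2).1 e (by omega)
      · rw [pp_coeff_succ, pp_coeff_succ, hcongr e (fun i _ _ => by omega)]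
        rcases e with _ | e
        · omega
        · rw [coeff_X_mul, coeff_X_mul, (ih j (by omega) hj2).2 e (by omega)]
          ring
    · -- `j = k₀`
      have hjk : j = k₀ := by omega
      subst hjk
      have hs : ∀ e, ∑ i ∈ Finset.range (j + 1), h' i j * (pp h' i).coeff e =
          ∑ i ∈ Finset.range (j + 1), h i j * (pp h i).coeff e + δ * (pp h i₀).coeff e := by
        intro e
        have hone : ∑ i ∈ Finset.range (j + 1), (if i = i₀ then δ * (pp h i₀).coeff e else 0) =
            δ * (pp h i₀).coeff e := by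
          rw [Finset.sum_ite_eq', if_pos (Finset.mem_range.2 (by omega))]
        rw [← hone, ← Finset.sum_add_distrib]
        refine Finset.sum_congr rfl fun i hi => ?_
        rw [Finset.mem_range] at hi
        rw [hA i (by omega)]
        by_cases hi0 : i = i₀
        · subst hi0
          rw [h2, if_pos rfl]; ring
        · rw [if_neg hi0, h1 i j (by omega), add_zero]
      refine ⟨fun e he => ?_, fun e he => ?_⟩
      · rw [pp_coeff_succ, pp_coeff_succ, hs e, hA j le_rfl, (pp_monic h i₀).1 e (by omega)]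
        ring
      · have : e = i₀ := by omega
        subst this
        rw [pp_coeff_succ, pp_coeff_succ, hs e, hA j le_rfl, (pp_monic h e).2]
        ring

private theorem pp_zero_eq (k : ℕ) : pp (fun _ _ => (0 : K)) k = X ^ k := by
  induction k with
  | zero => rw [pp_zero, pow_zero]
  | succ k ih =>
    rw [pp_succ, ih, pow_succ']
    simp

private theorem exists_pp {B : Type*} {n : ℕ} (κ : Fin n → B)
    (hunb : ∀ d : ℕ, 1 ≤ d → d < n → ∃ i j : Fin n, (j : ℕ) = i + d ∧ κ i ≠ κ j)
    (χ : ℕ → K) (hχn : χ n = 1) (hχ1 : χ (n - 1) = 0) (hn : 1 ≤ n) :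
    ∀ L, 1 ≤ L → L ≤ n → ∃ h : ℕ → ℕ → K, (∀ i j : Fin n, κ i = κ j → h i j = 0) ∧
      ∀ l, l ≤ L → (pp h n).coeff (n - l) = χ (n - l) := by
  intro L hL
  induction L, hL using Nat.le_induction with
  | base =>
    intro _
    refine ⟨fun _ _ => 0, fun _ _ _ => rfl, fun l hl => ?_⟩
    rw [pp_zero_eq, coeff_X_pow]
    rcases Nat.eq_zero_or_pos l with h0 | h0
    · subst h0
      rw [Nat.sub_zero, if_pos rfl, hχn]
    · have : l = 1 := by omega
      subst this
      rw [if_neg (by omega), hχ1]
  | succ L hL ih =>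
    intro hLn
    obtain ⟨h, hz, hc⟩ := ih (by omega)
    obtain ⟨i₀, k₀, hk, hne⟩ := hunb L hL (by omega)
    set δ : K := (pp h n).coeff (n - (L + 1)) - χ (n - (L + 1)) with hδ
    set h' : ℕ → ℕ → K := fun i k => if i = i₀ ∧ k = k₀ then h i k + δ else h i k with hh'
    have hk₀ := k₀.isLt
    obtain ⟨-, hch⟩ := pp_change h h' i₀ k₀ δ (by omega)
      (fun i k hik => by simp only [hh', if_neg hik]) (by simp [hh'])
    obtain ⟨c1, c2⟩ := hch n hk₀
    refine ⟨h', ?_, ?_⟩
    · intro i j hij
      have : ¬ ((i : ℕ) = i₀ ∧ (j : ℕ) = k₀) := by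
        rintro ⟨h1, h2⟩
        have h3 : i = i₀ := Fin.ext h1
        have h4 : j = k₀ := Fin.ext h2
        rw [h3, h4] at hij
        exact hne hij
      simp only [hh', if_neg this]
      exact hz i j hij
    · intro l hl
      rcases Nat.lt_or_ge L l with hl2 | hl2
      · have : l = L + 1 := by omega
        subst this
        rw [c2 (n - (L + 1)) (by omega), hδ]
        ring
      · rw [c1 (n - l) (by omega)]
        exact hc l hl2

theorem hess {B : Type*} {n : ℕ} (A : Matrix (Fin n) (Fin n) K) (htr : A.trace = 0)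
    (v : Fin n → K) (hv : LinearIndependent K (fun k : Fin n => (A ^ (k : ℕ)) *ᵥ v))
    (κ : Fin n → B)
    (hadj : ∀ i j : Fin n, (j : ℕ) = i + 1 → κ i ≠ κ j)
    (hunb : ∀ d : ℕ, 1 ≤ d → d < n → ∃ i j : Fin n, (j : ℕ) = i + d ∧ κ i ≠ κ j) :
    ∃ G G' : Matrix (Fin n) (Fin n) K, G * G' = 1 ∧ G' * G = 1 ∧
      ∀ i j, κ i = κ j → (G' * A * G) i j = 0 := by
  rcases Nat.eq_zero_or_pos n with hn | hn
  · subst hn
    exact ⟨1, 1, by simp, by simp, fun i => i.elim0⟩
  have : Nonempty (Fin n) := ⟨⟨0, hn⟩⟩
  have hdeg : A.charpoly.natDegree = n := by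
    rw [Matrix.charpoly_natDegree_eq_dim, Fintype.card_fin]
  have hmon : A.charpoly.coeff n = 1 := by
    have := (Matrix.charpoly_monic A).coeff_natDegree
    rwa [hdeg] at this
  have htr' : A.charpoly.coeff (n - 1) = 0 := by
    have h1 := Matrix.trace_eq_neg_charpoly_coeff A
    rw [htr, Fintype.card_fin] at h1
    exact neg_eq_zero.1 h1.symm
  obtain ⟨h, hz, hc⟩ := exists_pp κ hunb (fun e => A.charpoly.coeff e) hmon htr' hn n hn le_rfl
  have hpn : pp h n = A.charpoly := by
    ext e
    rcases Nat.lt_or_ge n e with he | he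
    · rw [(pp_monic h n).1 e he, coeff_eq_zero_of_natDegree_lt (by rw [hdeg]; exact he)]
    · have := hc (n - e) (by omega)
      rwa [show n - (n - e) = e by omega] at this
  -- the basis
  set ek : ℕ → Fin n → K := fun k => (aeval A (pp h k)) *ᵥ v with hek
  have hen : ek n = 0 := by
    rw [hek]
    simp only
    rw [hpn, Matrix.aeval_self_charpoly, Matrix.zero_mulVec]
  have hAe : ∀ k, A *ᵥ ek k = ek (k + 1) + ∑ i ∈ Finset.range (k + 1), h i k • ek i := by
    intro k
    have h1 : ek (k + 1) = A *ᵥ ek k - ∑ i ∈ Finset.range (k + 1), h i k • ek i := by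
      rw [hek]
      simp only
      rw [pp_succ, map_sub, map_mul, aeval_X, map_sum, Matrix.sub_mulVec, Matrix.mulVec_mulVec,
        Matrix.sum_mulVec]
      congr 1
      refine Finset.sum_congr rfl fun i _ => ?_
      rw [map_mul, aeval_C, Algebra.algebraMap_eq_smul_one, smul_mul_assoc, one_mul,
        Matrix.smul_mulVec]
    rw [h1, sub_add_cancel]
  set G : Matrix (Fin n) (Fin n) K := Matrix.of fun x k => ek k x with hG
  set M : Matrix (Fin n) (Fin n) K := Matrix.of fun x k => ((A ^ (k : ℕ)) *ᵥ v) x with hM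
  set U : Matrix (Fin n) (Fin n) K := Matrix.of fun j k => (pp h k).coeff j with hU
  have hGMU : G = M * U := by
    ext x k
    rw [Matrix.mul_apply]
    simp only [hG, hM, hU, Matrix.of_apply, hek]
    have hd : (pp h k).natDegree < n := by
      refine lt_of_le_of_lt ?_ k.isLt
      rw [natDegree_le_iff_coeff_eq_zero]
      exact fun e he => (pp_monic h k).1 e he
    rw [aeval_eq_sum_range' hd, Matrix.sum_mulVec, Finset.sum_apply, Finset.sum_range]
    refine Finset.sum_congr rfl fun j _ => ?_
    rw [Matrix.smul_mulVec, Pi.smul_apply, smul_eq_mul, mul_comm]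
  have hMu : IsUnit M := by
    rw [← Matrix.linearIndependent_cols_iff_isUnit]
    exact hv
  have hUdet : U.det = 1 := by
    rw [Matrix.det_of_isUpperTriangular]
    · refine Finset.prod_eq_one fun k _ => ?_
      exact (pp_monic h k).2
    · intro i j hij
      exact (pp_monic h j).1 i hij
  have hGu : IsUnit G := by
    rw [hGMU]
    refine hMu.mul ?_
    rw [Matrix.isUnit_iff_isUnit_det, hUdet]
    exact isUnit_one
  set H : Matrix (Fin n) (Fin n) K := Matrix.of fun i k =>
    if (i : ℕ) ≤ k then h i k else if (i : ℕ) = k + 1 then 1 else 0 with hH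
  have hAG : A * G = G * H := by
    ext x k
    have h1 : (A * G) x k = (A *ᵥ ek k) x := rfl
    rw [h1, hAe k, Matrix.mul_apply]
    have h2 : ∀ i : Fin n, G x i * H i k =
        (if (i : ℕ) ≤ k then h i k * ek i x else 0) + (if (i : ℕ) = k + 1 then ek i x else 0) := by
      intro i
      simp only [hG, hH, Matrix.of_apply]
      by_cases c1 : (i : ℕ) ≤ k
      · rw [if_pos c1, if_pos c1, if_neg (by omega), add_zero, mul_comm]
      · rw [if_neg c1, if_neg c1, zero_add]
        by_cases c2 : (i : ℕ) = k + 1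
        · rw [if_pos c2, if_pos c2, mul_one]
        · rw [if_neg c2, if_neg c2, mul_zero]
    rw [Finset.sum_congr rfl fun i _ => h2 i, Finset.sum_add_distrib, add_comm (ek (k + 1))]
    rw [Pi.add_apply]
    congr 1
    · rw [Finset.sum_apply, Fin.sum_univ_eq_sum_range
        (fun i => if i ≤ (k : ℕ) then h i k * ek i x else 0) n]
      have hsub : Finset.range ((k : ℕ) + 1) ⊆ Finset.range n := by
        intro i hi
        rw [Finset.mem_range] at hi ⊢
        have := k.isLt
        omega
      rw [← Finset.sum_subset hsub]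
      · refine Finset.sum_congr rfl fun i hi => ?_
        rw [Finset.mem_range] at hi
        rw [if_pos (by omega)]
        rfl
      · intro i _ hi
        rw [Finset.mem_range] at hi
        rw [if_neg (by omega)]
    · rw [Fin.sum_univ_eq_sum_range (fun i => if i = (k : ℕ) + 1 then ek i x else 0) n,
        Finset.sum_ite_eq']
      by_cases hk : (k : ℕ) + 1 ∈ Finset.range n
      · rw [if_pos hk]
      · rw [if_neg hk]
        rw [Finset.mem_range] at hk
        have : (k : ℕ) + 1 = n := by have := k.isLt; omega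
        rw [this, hen]
        rfl
  have hdetG : IsUnit G.det := (Matrix.isUnit_iff_isUnit_det G).1 hGu
  refine ⟨G, G⁻¹, Matrix.mul_nonsing_inv G hdetG, Matrix.nonsing_inv_mul G hdetG, ?_⟩
  have hconj : G⁻¹ * A * G = H := by
    rw [Matrix.mul_assoc, hAG, ← Matrix.mul_assoc, Matrix.nonsing_inv_mul G hdetG, Matrix.one_mul]
  intro i j hij
  rw [hconj]
  simp only [hH, Matrix.of_apply]
  by_cases c1 : (i : ℕ) ≤ j
  · rw [if_pos c1]; exact hz i j hij
  · rw [if_neg c1]
    by_cases c2 : (i : ℕ) = j + 1
    · exact absurd hij.symm (hadj j i c2)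
    · rw [if_neg c2]

end MLI
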