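import Mathlib

set_option autoImplicit false

/-!
# MP_05d08f_al, module HOLLOW: a nonscalar trace zero matrix over any field is similar to a matrix with zero
diagonal

PROOF.  Induction on `n`; state it for matrices over `Fin n`, hypothesis: `A = 0` or `A` is not a scalar matrix.
`A = 0`: `G = 1`.  A nonscalar matrix is conjugate (by at most one transvection) to a matrix with a nonzero off
diagonal entry in some column `j`.  Split off the index `j`: `B = [[A', c], [r, a]]` with `c ≠ 0`.  Conjugation
by `T = [[1, 0], [S, 1]]` gives `[[A' + c S, c], [_, a - S c]]`.  Choose `S` with `S c = a`; if `A' + c S` is a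
scalar matrix and `n ≥ 2`, add to `S` a row `S'` with `S' c = 0`, `c S'` not diagonal.
-/

namespace MLI

open Matrix

variable {K : Type*} [Field K]

/-- Similar to a matrix with zero diagonal. -/
private def Hol {ι : Type*} [Fintype ι] [DecidableEq ι] (A : Matrix ι ι K) : Prop :=
  ∃ G G' : Matrix ι ι K, G * G' = 1 ∧ G' * G = 1 ∧ ∀ i, (G' * A * G) i i = 0

private theorem Hol.conj {ι : Type*} [Fintype ι] [DecidableEq ι] (A P P' : Matrix ι ι K)
    (h1 : P * P' = 1) (h2 : P' * P = 1) (h : Hol (P' * A * P)) : Hol A := by
  obtain ⟨G, G', hG, hG', hd⟩ := h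
  refine ⟨P * G, G' * P', ?_, ?_, ?_⟩
  · calc P * G * (G' * P') = P * (G * G') * P' := by simp only [mul_assoc]
      _ = 1 := by rw [hG, mul_one, h1]
  · calc G' * P' * (P * G) = G' * (P' * P) * G := by simp only [mul_assoc]
      _ = 1 := by rw [h2, mul_one, hG']
  · intro i
    have : G' * P' * A * (P * G) = G' * (P' * A * P) * G := by simp only [mul_assoc]
    rw [this]; exact hd i

private theorem Hol.reindex {ι κ : Type*} [Fintype ι] [DecidableEq ι] [Fintype κ] [DecidableEq κ]
    (e : κ ≃ ι) (A : Matrix ι ι K) (h : Hol (A.submatrix e e)) : Hol A := by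
  obtain ⟨G, G', hG, hG', hd⟩ := h
  refine ⟨G.submatrix e.symm e.symm, G'.submatrix e.symm e.symm, ?_, ?_, ?_⟩
  · rw [Matrix.submatrix_mul_equiv, hG, Matrix.submatrix_one_equiv]
  · rw [Matrix.submatrix_mul_equiv, hG', Matrix.submatrix_one_equiv]
  · intro i
    have h1 : A = (A.submatrix e e).submatrix e.symm e.symm := by
      ext x y; simp
    rw [h1, Matrix.submatrix_mul_equiv, Matrix.submatrix_mul_equiv]
    exact hd _

private theorem hol_block {n : ℕ}
    (ih : ∀ A : Matrix (Fin n) (Fin n) K, A.trace = 0 →
      (A = 0 ∨ ∀ t : K, A ≠ Matrix.scalar (Fin n) t) → Hol A)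
    (A' : Matrix (Fin n) (Fin n) K) (c : Matrix (Fin n) PUnit.{1} K)
    (r : Matrix PUnit.{1} (Fin n) K) (a : Matrix PUnit.{1} PUnit.{1} K)
    (htr : A'.trace + a.trace = 0) (hc : c ≠ 0) : Hol (Matrix.fromBlocks A' c r a) := by
  have hc' : ∃ i, c i PUnit.unit ≠ 0 := by
    by_contra hcon
    push Not at hcon
    exact hc (by ext i u; exact hcon i)
  obtain ⟨i, hi⟩ := hc'
  -- choose `S`
  have hS : ∃ S : Matrix PUnit.{1} (Fin n) K, S * c = a ∧
      (A' + c * S = 0 ∨ ∀ t : K, A' + c * S ≠ Matrix.scalar (Fin n) t) := by
    set S₀ : Matrix PUnit.{1} (Fin n) K :=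
      Matrix.of fun _ k => if k = i then a PUnit.unit PUnit.unit / c i PUnit.unit else 0 with hS₀
    have hS₀c : S₀ * c = a := by
      ext u w
      rw [Matrix.mul_apply]
      simp only [hS₀, Matrix.of_apply, ite_mul, zero_mul, Finset.sum_ite_eq', Finset.mem_univ,
        if_true]
      exact div_mul_cancel₀ _ hi
    by_cases hsc : ∃ t : K, A' + c * S₀ = Matrix.scalar (Fin n) t
    · obtain ⟨t, ht⟩ := hsc
      by_cases hj : ∃ j : Fin n, j ≠ i
      · obtain ⟨j, hj⟩ := hj
        set S₁ : Matrix PUnit.{1} (Fin n) K :=
          Matrix.of fun _ k => if k = j then c i PUnit.unit else if k = i then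
            - c j PUnit.unit else 0 with hS₁
        have hS₁c : S₁ * c = 0 := by
          ext u w
          rw [Matrix.mul_apply]
          have : ∀ k, S₁ u k * c k w = (if k = j then c i PUnit.unit * c j PUnit.unit else 0) +
              (if k = i then - (c j PUnit.unit * c i PUnit.unit) else 0) := by
            intro k
            simp only [hS₁, Matrix.of_apply]
            by_cases h1 : k = j
            · subst h1
              rw [if_pos rfl, if_pos rfl, if_neg hj, add_zero]
            · by_cases h2 : k = i
              · subst h2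
                rw [if_neg h1, if_pos rfl, if_neg h1, if_pos rfl, zero_add, neg_mul]
              · simp [h1, h2]
          rw [Finset.sum_congr rfl fun k _ => this k, Finset.sum_add_distrib]
          simp only [Finset.sum_ite_eq', Finset.mem_univ, if_true, Matrix.zero_apply]
          ring
        refine ⟨S₀ + S₁, by rw [Matrix.add_mul, hS₀c, hS₁c, add_zero], Or.inr fun s hs => ?_⟩
        have h1 : A' + c * (S₀ + S₁) = Matrix.scalar (Fin n) t + c * S₁ := by
          rw [Matrix.mul_add, ← add_assoc, ht]
        rw [h1] at hs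
        have h2 := congrFun (congrFun hs i) j
        rw [Matrix.add_apply, Matrix.scalar_apply, Matrix.scalar_apply,
          Matrix.diagonal_apply_ne _ hj.symm, Matrix.diagonal_apply_ne _ hj.symm, zero_add,
          Matrix.mul_apply] at h2
        simp only [Finset.univ_unique, Finset.sum_singleton, hS₁, Matrix.of_apply, if_true] at h2
        exact hi (mul_self_eq_zero.1 h2)
      · push Not at hj
        refine ⟨S₀, hS₀c, Or.inl ?_⟩
        -- trace zero and one index
        have htr2 : (A' + c * S₀).trace = 0 := by
          rw [Matrix.trace_add, Matrix.trace_mul_comm, hS₀c, htr]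
        rw [Matrix.trace, Finset.sum_eq_single i (fun b _ hb => absurd (hj b) hb)
          (fun h => absurd (Finset.mem_univ i) h)] at htr2
        ext x y
        rw [hj x, hj y]
        exact htr2
    · push Not at hsc
      exact ⟨S₀, hS₀c, Or.inr hsc⟩
  obtain ⟨S, hSc, hS⟩ := hS
  refine Hol.conj _ (Matrix.fromBlocks 1 0 S 1) (Matrix.fromBlocks 1 0 (-S) 1) ?_ ?_ ?_
  · rw [Matrix.fromBlocks_multiply]; simp
  · rw [Matrix.fromBlocks_multiply]; simp
  · rw [Matrix.fromBlocks_multiply, Matrix.fromBlocks_multiply]
    have htr2 : (A' + c * S).trace = 0 := by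
      rw [Matrix.trace_add, Matrix.trace_mul_comm, hSc, htr]
    obtain ⟨G, G', hG, hG', hd⟩ := ih _ htr2 hS
    refine ⟨Matrix.fromBlocks G 0 0 1, Matrix.fromBlocks G' 0 0 1, ?_, ?_, ?_⟩
    · rw [Matrix.fromBlocks_multiply]; simp [hG]
    · rw [Matrix.fromBlocks_multiply]; simp [hG']
    · intro x
      rw [Matrix.fromBlocks_multiply, Matrix.fromBlocks_multiply]
      rcases x with x | x
      · rw [Matrix.fromBlocks_apply₁₁]
        have := hd x
        simpa using this
      · rw [Matrix.fromBlocks_apply₂₂]
        simp [hSc]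

private theorem hol_all (n : ℕ) : ∀ A : Matrix (Fin n) (Fin n) K, A.trace = 0 →
    (A = 0 ∨ ∀ t : K, A ≠ Matrix.scalar (Fin n) t) → Hol A := by
  induction n with
  | zero =>
    intro A _ _
    exact ⟨1, 1, by simp, by simp, fun i => i.elim0⟩
  | succ n ih =>
    -- nondiagonal matrices
    have hnd : ∀ A : Matrix (Fin (n + 1)) (Fin (n + 1)) K, A.trace = 0 →
        (∃ i j, i ≠ j ∧ A i j ≠ 0) → Hol A := by
      intro A htr hA
      obtain ⟨i, j, hij, hA⟩ := hA
      set e : Fin (n + 1) ≃ Fin n ⊕ PUnit.{1} :=
        (finSuccEquiv' j).trans (Equiv.optionEquivSumPUnit (Fin n)) with he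
      have hej : e.symm (Sum.inr PUnit.unit) = j := by
        rw [Equiv.symm_apply_eq]; simp [he]
      obtain ⟨k, hk⟩ : ∃ k, e.symm (Sum.inl k) = i := by
        rcases h : e i with k | u
        · exact ⟨k, by rw [← h, e.symm_apply_apply]⟩
        · exfalso
          have : i = j := by
            rw [← hej, Equiv.eq_symm_apply]; exact h
          exact hij this
      refine Hol.reindex e.symm A ?_
      have hB := Matrix.fromBlocks_toBlocks (A.submatrix e.symm e.symm)
      rw [← hB]
      refine hol_block ih _ _ _ _ ?_ ?_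
      · have h1 : (A.submatrix e.symm e.symm).trace = 0 := by
          rw [← htr]
          exact Equiv.sum_comp e.symm (fun x => A x x)
        rw [← hB] at h1
        rw [← h1]
        simp only [Matrix.trace, Fintype.sum_sum_type, Matrix.diag_apply, Matrix.fromBlocks_apply₁₁,
          Matrix.fromBlocks_apply₂₂]
      · intro h0
        have := congrFun (congrFun h0 k) PUnit.unit
        rw [Matrix.toBlocks₁₂, Matrix.of_apply, Matrix.submatrix_apply, hk, hej] at this
        exact hA this
    intro A htr hA
    rcases hA with hA | hA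
    · subst hA
      exact ⟨1, 1, by simp, by simp, fun i => by simp⟩
    · by_cases hex : ∃ i j, i ≠ j ∧ A i j ≠ 0
      · exact hnd A htr hex
      · push Not at hex
        have h2 : ∃ i j, A i i ≠ A j j := by
          by_contra hcon
          push Not at hcon
          refine hA (A 0 0) ?_
          ext x y
          rw [Matrix.scalar_apply]
          by_cases hxy : x = y
          · subst hxy; rw [Matrix.diagonal_apply_eq]; exact hcon _ _
          · rw [Matrix.diagonal_apply_ne _ hxy]; exact hex x y hxy
        obtain ⟨i, j, hij⟩ := h2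
        have hne : i ≠ j := fun h => hij (by rw [h])
        have hsq : Matrix.single i j (1 : K) * Matrix.single i j (1 : K) = 0 :=
          Matrix.single_mul_single_of_ne _ _ _ _ hne.symm _
        have hP1 : (1 + Matrix.single i j (1 : K)) * (1 - Matrix.single i j (1 : K)) = 1 := by
          rw [add_mul, mul_sub, mul_sub, hsq]; simp
        have hP2 : (1 - Matrix.single i j (1 : K)) * (1 + Matrix.single i j (1 : K)) = 1 := by
          rw [sub_mul, mul_add, mul_add, hsq]; simp
        refine Hol.conj A (1 + Matrix.single i j (1 : K)) (1 - Matrix.single i j (1 : K)) hP1 hP2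
          (hnd _ ?_ ⟨i, j, hne, ?_⟩)
        · rw [Matrix.trace_mul_comm, ← mul_assoc, hP1, one_mul, htr]
        · have hE : (1 - Matrix.single i j (1 : K)) * A * (1 + Matrix.single i j (1 : K)) =
              A + A * Matrix.single i j (1 : K) - Matrix.single i j (1 : K) * A -
                Matrix.single i j (1 : K) * A * Matrix.single i j (1 : K) := by
            noncomm_ring
          rw [hE, Matrix.sub_apply, Matrix.sub_apply, Matrix.add_apply, hex i j hne]
          rw [Matrix.mul_single_apply_same, Matrix.single_mul_apply_same,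
            Matrix.mul_single_apply_same, Matrix.single_mul_apply_same, hex j i hne.symm]
          simp only [mul_one, one_mul, zero_add, sub_zero]
          exact sub_ne_zero.2 hij

theorem exists_hollow {n : ℕ} (A : Matrix (Fin n) (Fin n) K) (htr : A.trace = 0)
    (h : A = 0 ∨ ∀ t : K, A ≠ Matrix.scalar (Fin n) t) :
    ∃ G G' : Matrix (Fin n) (Fin n) K, G * G' = 1 ∧ G' * G = 1 ∧ ∀ i, (G' * A * G) i i = 0 :=
  hol_all n A htr h

end MLI
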