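import Pool.Agent.Work.MP_05d08f_al.Basic

set_option autoImplicit false

/-!
# MP_05d08f_al, module STAIR: nonzero polynomials of degree `m < 4 r` have `Phi ≠ 0` on `r × r` matrices

PROOF.  Let `c σ₀ ≠ 0`.  Put `k₀ = min (m - 1) (2 r - 1)` and `i = σ₀ k₀`.  There are `k₀ ≤ 2 r - 1` letters before
`i` in the word `σ₀` and `m - 1 - k₀ ≤ 2 r - 1` letters after it.  Let `st k = E_{⌊k/2⌋, ⌊(k+1)/2⌋}`, `k ≤ 2r - 2`
(matrix units `E_00, E_01, E_11, E_12, E_22, …, E_{r-1,r-1}`; `⌊(k+1)/2⌋ ≤ r - 1`).  Put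
`X (σ₀ k) = st k` for `k < k₀`, `X = 0` at the other letters, `Y (σ₀ k) = st (k - k₀ - 1)` for `k > k₀`, `Y = 0` at
the other letters.  Let `z = E_{b, 0}` where `b = ⌊k₀ / 2⌋` is the end of the left path (`st 0 ⋯ st (k₀ - 1)` is
`E_{0, ⌊k₀/2⌋}`, and it is `1` for `k₀ = 0`).
The term of `σ` in `Phi c i X Y z` is zero unless all letters before `i`
in `σ` are `σ₀ k` with `k < k₀`, all letters after `i` are `σ₀ k`, `k > k₀`, and the units in each of the two products
match.  If `st x * st y ≠ 0` then `⌊(x+1)/2⌋ = ⌊y/2⌋`, so `y ∈ {x, x+1, x+2}`, and as the letters are distinct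
`y > x`; so a nonzero product of distinct `st`'s is increasing, hence `σ = σ₀`.
-/

namespace MLI

open Matrix Equiv

variable {K : Type*} [Field K] {m : ℕ}

/-- The staircase of matrix units. -/
private def st (K : Type*) [Field K] (r k : ℕ) : Matrix (Fin r) (Fin r) K :=
  Matrix.of fun a b => if (a : ℕ) = k / 2 ∧ (b : ℕ) = (k + 1) / 2 then 1 else 0

private theorem chain_aux {r : ℕ} (X : Fin m → Matrix (Fin r) (Fin r) K) (g : Fin m → ℕ)
    (hX : ∀ j a b, X j a b ≠ 0 → (a : ℕ) = g j / 2 ∧ (b : ℕ) = (g j + 1) / 2)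
    (hg : ∀ x y, (∃ a b, X x a b ≠ 0) → (∃ a b, X y a b ≠ 0) → g x = g y → x = y) :
    ∀ (l : List (Fin m)) (a b : Fin r), l.Nodup → (l.map X).prod a b ≠ 0 →
      l.IsChain (fun x y => g x < g y) ∧ (∀ j ∈ l, ∃ a b, X j a b ≠ 0) ∧
        ∀ x l', l = x :: l' → (a : ℕ) = g x / 2 := by
  intro l
  induction l with
  | nil =>
    intro a b _ _
    refine ⟨List.isChain_nil, fun j hj => by simp at hj, fun x l' h => by simp at h⟩
  | cons x l ih =>
    intro a b hnd h
    rw [List.map_cons, List.prod_cons, Matrix.mul_apply] at h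
    obtain ⟨c, -, hc⟩ := Finset.exists_ne_zero_of_sum_ne_zero h
    have hc1 : X x a c ≠ 0 := fun h0 => hc (by rw [h0, zero_mul])
    have hc2 : (l.map X).prod c b ≠ 0 := fun h0 => hc (by rw [h0, mul_zero])
    obtain ⟨h1, h2⟩ := hX x a c hc1
    obtain ⟨ih1, ih2, ih3⟩ := ih c b (List.nodup_cons.1 hnd).2 hc2
    refine ⟨?_, ?_, ?_⟩
    · rcases l with _ | ⟨y, l⟩
      · exact List.isChain_singleton _
      · refine List.isChain_cons_cons.2 ⟨?_, ih1⟩
        have h3 := ih3 y l rfl
        have hxy : x ≠ y := fun h0 => (List.nodup_cons.1 hnd).1 (by rw [h0]; simp)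
        have h4 : g x ≠ g y := fun h0 => hxy (hg x y ⟨a, c, hc1⟩ (ih2 y (by simp)) h0)
        omega
    · intro j hj
      rcases List.mem_cons.1 hj with hj | hj
      · subst hj; exact ⟨a, c, hc1⟩
      · exact ih2 j hj
    · intro y l' hl
      rw [List.cons.injEq] at hl
      rw [← hl.1]; exact h1

private theorem st_range {r : ℕ} (a : Fin r) (ha : (a : ℕ) = 0) : ∀ (k : ℕ) (b : Fin r),
    (b : ℕ) = k / 2 → k ≤ 2 * r - 1 → ((List.range k).map (st K r)).prod a b = 1 := by
  intro k
  induction k with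
  | zero =>
    intro b hb _
    have : a = b := by apply Fin.ext; omega
    subst this
    simp
  | succ k ih =>
    intro b hb hk
    have hr := a.isLt
    rw [List.range_succ, List.map_append, List.prod_append, Matrix.mul_apply,
      Finset.sum_eq_single (⟨k / 2, by omega⟩ : Fin r)]
    · rw [ih ⟨k / 2, by omega⟩ rfl (by omega), one_mul]
      simp [st, hb]
    · intro c _ hc
      have : (c : ℕ) ≠ k / 2 := fun h0 => hc (Fin.ext h0)
      simp [st, this]
    · intro h; exact absurd (Finset.mem_univ _) h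

private theorem eq_of_term {r : ℕ} (σ₀ σ : Perm (Fin m)) (k₀ : Fin m)
    (X Y : Fin m → Matrix (Fin r) (Fin r) K) (z : Matrix (Fin r) (Fin r) K)
    (hX : X = fun j => if σ₀.symm j < k₀ then st K r (σ₀.symm j) else 0)
    (hY : Y = fun j => if k₀ < σ₀.symm j then st K r (σ₀.symm j - k₀ - 1) else 0)
    (a b : Fin r)
    (h : (((wl σ (σ₀ k₀)).map X).prod * z * ((wr σ (σ₀ k₀)).map Y).prod) a b ≠ 0) : σ = σ₀ := by
  rw [Matrix.mul_apply] at h
  obtain ⟨d, -, hd⟩ := Finset.exists_ne_zero_of_sum_ne_zero h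
  have hd1 : (((wl σ (σ₀ k₀)).map X).prod * z) a d ≠ 0 := fun h0 => hd (by rw [h0, zero_mul])
  have hd2 : ((wr σ (σ₀ k₀)).map Y).prod d b ≠ 0 := fun h0 => hd (by rw [h0, mul_zero])
  rw [Matrix.mul_apply] at hd1
  obtain ⟨e, -, he⟩ := Finset.exists_ne_zero_of_sum_ne_zero hd1
  have he1 : ((wl σ (σ₀ k₀)).map X).prod a e ≠ 0 := fun h0 => he (by rw [h0, zero_mul])
  have hsX : ∀ j, (∃ a b, X j a b ≠ 0) → σ₀.symm j < k₀ := by
    rintro j ⟨a, b, hj⟩
    by_contra hcon
    rw [hX] at hj
    simp only [if_neg hcon] at hj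
    exact hj rfl
  have hsY : ∀ j, (∃ a b, Y j a b ≠ 0) → k₀ < σ₀.symm j := by
    rintro j ⟨a, b, hj⟩
    by_contra hcon
    rw [hY] at hj
    simp only [if_neg hcon] at hj
    exact hj rfl
  obtain ⟨l1, l2, -⟩ := chain_aux X (fun j => (σ₀.symm j : ℕ)) (by
    intro j a b hj
    have hj' := hsX j ⟨a, b, hj⟩
    rw [hX] at hj
    simp only [if_pos hj', st, Matrix.of_apply] at hj
    by_contra hcon
    rw [if_neg hcon] at hj
    exact hj rfl) (by
    intro x y _ _ hxy
    exact σ₀.symm.injective (Fin.ext hxy)) _ a e (nodup_wl σ _) he1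
  obtain ⟨r1, r2, -⟩ := chain_aux Y (fun j => (σ₀.symm j : ℕ) - k₀ - 1) (by
    intro j a b hj
    have hj' := hsY j ⟨a, b, hj⟩
    rw [hY] at hj
    simp only [if_pos hj', st, Matrix.of_apply] at hj
    by_contra hcon
    rw [if_neg hcon] at hj
    exact hj rfl) (by
    intro x y hx hy hxy
    have h1 := hsY x hx
    have h2 := hsY y hy
    rw [Fin.lt_def] at h1 h2
    refine σ₀.symm.injective (Fin.ext ?_)
    omega) _ d b (nodup_wr σ _) hd2
  -- the word of `σ` is increasing
  have hpw : (List.ofFn fun k => σ k).Pairwise (fun x y => σ₀.symm x < σ₀.symm y) := by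
    rw [ofFn_split σ (σ₀ k₀), List.pairwise_append]
    have t1 : IsTrans (Fin m) (fun x y => (σ₀.symm x : ℕ) < (σ₀.symm y : ℕ)) :=
      ⟨fun _ _ _ h1 h2 => h1.trans h2⟩
    have t2 : IsTrans (Fin m) (fun x y => (σ₀.symm x : ℕ) - k₀ - 1 < (σ₀.symm y : ℕ) - k₀ - 1) :=
      ⟨fun _ _ _ h1 h2 => h1.trans h2⟩
    have p1 := List.isChain_iff_pairwise.1 l1
    have p2 := List.isChain_iff_pairwise.1 r1
    refine ⟨p1.imp fun h => Fin.lt_def.2 h, ?_, ?_⟩
    · rw [List.pairwise_cons]
      refine ⟨fun j hj => ?_, p2.imp fun h => Fin.lt_def.2 (by omega)⟩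
      rw [Equiv.symm_apply_apply]
      exact hsY j (r2 j hj)
    · intro x hx y hy
      have hx' := hsX x (l2 x hx)
      rcases List.mem_cons.1 hy with hy | hy
      · rw [hy, Equiv.symm_apply_apply]; exact hx'
      · exact hx'.trans (hsY y (r2 y hy))
  rw [List.pairwise_ofFn] at hpw
  have hmono : StrictMono (fun k => σ₀.symm (σ k)) := fun x y hxy => hpw hxy
  have hid : StrictMono (id : Fin m → Fin m) := strictMono_id
  have hrange : Set.range (fun k => σ₀.symm (σ k)) = Set.range (id : Fin m → Fin m) := by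
    rw [Set.range_id, Set.range_eq_univ]
    exact (σ₀.symm.surjective).comp σ.surjective
  have heq := (hmono.range_inj hid).1 hrange
  refine Equiv.ext fun k => ?_
  have := congrFun heq k
  simp only [id] at this
  rw [Equiv.symm_apply_eq] at this
  exact this

theorem phi_of_degree {r : ℕ} (hm : 0 < m) (hmr : m < 4 * r) (c : Perm (Fin m) → K) (hc : c ≠ 0) :
    ∃ (i : Fin m) (X Y : Fin m → Matrix (Fin r) (Fin r) K) (z : Matrix (Fin r) (Fin r) K),
      Phi c i X Y z ≠ 0 := by
  obtain ⟨σ₀, hσ₀⟩ := Function.ne_iff.1 hc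
  have hr : 0 < r := by omega
  set k₀ : Fin m := ⟨min (m - 1) (2 * r - 1), by omega⟩ with hk₀
  have hk₀v : (k₀ : ℕ) = min (m - 1) (2 * r - 1) := rfl
  set X : Fin m → Matrix (Fin r) (Fin r) K :=
    fun j => if σ₀.symm j < k₀ then st K r (σ₀.symm j) else 0 with hX
  set Y : Fin m → Matrix (Fin r) (Fin r) K :=
    fun j => if k₀ < σ₀.symm j then st K r (σ₀.symm j - k₀ - 1) else 0 with hY
  set a₀ : Fin r := ⟨0, hr⟩ with ha₀
  set a₁ : Fin r := ⟨k₀ / 2, by omega⟩ with ha₁
  set a₂ : Fin r := ⟨(m - 1 - k₀) / 2, by omega⟩ with ha₂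
  refine ⟨σ₀ k₀, X, Y, Matrix.single a₁ a₀ 1, ?_⟩
  intro h0
  have h1 := congrFun (congrFun h0 a₀) a₂
  unfold Phi at h1
  rw [Matrix.sum_apply, Finset.sum_eq_single σ₀] at h1
  · -- the term of `σ₀`
    have hL : (wl σ₀ (σ₀ k₀)).map X = (List.range k₀).map (st K r) := by
      unfold wl
      apply List.ext_getElem
      · simp
      · intro t ht1 ht2
        simp only [List.length_map, List.length_take, List.length_ofFn, List.length_range,
          Equiv.symm_apply_apply] at ht1 ht2
        simp only [List.getElem_map, List.getElem_take, List.getElem_ofFn, List.getElem_range]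
        have hXt : ∀ q, X (σ₀ q) = if q < k₀ then st K r q else 0 := fun q => by
          simp only [hX, Equiv.symm_apply_apply]
        rw [hXt, if_pos (Fin.lt_def.2 (by simpa using ht2))]
    have hR : (wr σ₀ (σ₀ k₀)).map Y = (List.range (m - 1 - k₀)).map (st K r) := by
      unfold wr
      apply List.ext_getElem
      · simp only [List.length_map, List.length_drop, List.length_ofFn, List.length_range,
          Equiv.symm_apply_apply]
        omega
      · intro t ht1 ht2
        simp only [List.length_map, List.length_drop, List.length_ofFn, List.length_range,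
          Equiv.symm_apply_apply] at ht1 ht2
        simp only [List.getElem_map, List.getElem_drop, List.getElem_ofFn, List.getElem_range]
        have hYt : ∀ q, Y (σ₀ q) = if k₀ < q then st K r (q - k₀ - 1) else 0 := fun q => by
          simp only [hY, Equiv.symm_apply_apply]
        rw [hYt, if_pos (Fin.lt_def.2 (by simp only [Equiv.symm_apply_apply]; omega))]
        congr 1
        simp only [Equiv.symm_apply_apply]
        omega
    rw [Matrix.smul_apply, hL, hR, Matrix.mul_assoc, Matrix.mul_apply,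
      Finset.sum_eq_single a₁, st_range a₀ rfl k₀ a₁ rfl (by omega), one_mul,
      Matrix.single_mul_apply_same, one_mul, st_range a₀ rfl (m - 1 - k₀) a₂ rfl (by omega)] at h1
    · simp only [smul_eq_mul, mul_one, Matrix.zero_apply] at h1
      exact hσ₀ h1
    · intro b _ hb
      rw [Matrix.single_mul_apply_of_ne _ _ _ _ _ hb, mul_zero]
    · intro h; exact absurd (Finset.mem_univ _) h
  · intro σ _ hσ
    by_contra hcon
    refine hσ (eq_of_term σ₀ σ k₀ X Y (Matrix.single a₁ a₀ 1) hX hY a₀ a₂ fun h2 => hcon ?_)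
    rw [Matrix.smul_apply, h2, smul_zero]
  · intro h; exact absurd (Finset.mem_univ _) h

end MLI
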