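import Pool.Agent.Work.MP_05d08f_al.Basic

set_option autoImplicit false

/-!
# MP_05d08f_al, module UT: a polynomial which is not an identity of `UT(r, r)` has some `Phi ≠ 0`
-/

namespace MLI

open Matrix Equiv

variable {K : Type*} [Field K] {m : ℕ}

/-- Product of block upper triangular matrices along a word without repetition. -/
theorem prod_UT {r : ℕ} (X Y Z : Fin m → Matrix (Fin r) (Fin r) K) (l : List (Fin m)) :
    (l.map fun j => Matrix.fromBlocks (X j) (Z j) 0 (Y j)).prod =
      Matrix.fromBlocks (l.map X).prod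
        (∑ k : Fin l.length, ((l.take k.val).map X).prod * Z (l.get k) *
          ((l.drop (k.val + 1)).map Y).prod) 0 (l.map Y).prod := by
  induction l with
  | nil => simp
  | cons j l ih =>
    rw [List.map_cons, List.prod_cons, ih, Matrix.fromBlocks_multiply]
    simp only [List.map_cons, List.prod_cons, Matrix.mul_zero, Matrix.zero_mul, add_zero, zero_add]
    congr 1
    refine Eq.trans ?_ (Fin.sum_univ_succ (fun k : Fin (l.length + 1) =>
      (((j :: l).take k.val).map X).prod * Z ((j :: l).get k) *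
          (((j :: l).drop (k.val + 1)).map Y).prod)).symm
    simp only [Fin.val_zero, List.take_zero, List.map_nil, List.prod_nil, one_mul,
      List.get_cons_zero, zero_add, List.drop_succ_cons, List.drop_zero, Fin.val_succ,
      List.take_succ_cons, List.map_cons, List.prod_cons]
    rw [add_comm, Finset.mul_sum]
    simp only [mul_assoc]
    rfl

theorem ev_UT {r : ℕ} (c : Perm (Fin m) → K) (X Y Z : Fin m → Matrix (Fin r) (Fin r) K) :
    ev c (fun j => Matrix.fromBlocks (X j) (Z j) 0 (Y j)) =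
      Matrix.fromBlocks (ev c X) (∑ i, Phi c i X Y (Z i)) 0 (ev c Y) := by
  have hσ : ∀ σ : Perm (Fin m),
      (List.ofFn fun k => Matrix.fromBlocks (X (σ k)) (Z (σ k)) 0 (Y (σ k))).prod =
      Matrix.fromBlocks (List.ofFn fun k => X (σ k)).prod
        (∑ i, ((wl σ i).map X).prod * Z i * ((wr σ i).map Y).prod) 0
        (List.ofFn fun k => Y (σ k)).prod := by
    intro σ
    have h1 : (List.ofFn fun k => Matrix.fromBlocks (X (σ k)) (Z (σ k)) 0 (Y (σ k))) =
        (List.ofFn fun k => σ k).map fun j => Matrix.fromBlocks (X j) (Z j) 0 (Y j) := by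
      rw [List.map_ofFn]; rfl
    have h2 : ∀ W : Fin m → Matrix (Fin r) (Fin r) K, (List.ofFn fun k => W (σ k)) =
        (List.ofFn fun k => σ k).map W := by
      intro W; rw [List.map_ofFn]; rfl
    rw [h1, prod_UT, h2 X, h2 Y]
    congr 1
    have hlen : (List.ofFn fun k => σ k).length = m := List.length_ofFn
    rw [← Equiv.sum_comp σ (fun i => ((wl σ i).map X).prod * Z i * ((wr σ i).map Y).prod),
      ← Equiv.sum_comp (finCongr hlen)]
    refine Finset.sum_congr rfl fun k _ => ?_
    have h3 : σ (finCongr hlen k) = (List.ofFn fun k => σ k).get k := by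
      simp only [List.get_eq_getElem, List.getElem_ofFn]
      rfl
    have h4 : ((σ.symm (σ (finCongr hlen k))).val) = k.val := by simp
    unfold wl wr
    rw [h4, h3]
  unfold ev
  simp only [hσ]
  rw [← Matrix.fromBlocks_toBlocks (∑ σ : Perm (Fin m), c σ • Matrix.fromBlocks _ _ _ _)]
  have hs : ∀ (F : Perm (Fin m) → Matrix (Fin r ⊕ Fin r) (Fin r ⊕ Fin r) K) (x y),
      (∑ σ, F σ) x y = ∑ σ, F σ x y := fun F x y => Matrix.sum_apply _ _ _ _
  have hs' : ∀ (F : Perm (Fin m) → Matrix (Fin r) (Fin r) K) (x y),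
      (∑ σ, F σ) x y = ∑ σ, F σ x y := fun F x y => Matrix.sum_apply _ _ _ _
  congr 1
  · ext a b
    rw [Matrix.toBlocks₁₁, Matrix.of_apply, hs, hs']
    rfl
  · ext a b
    rw [Matrix.toBlocks₁₂, Matrix.of_apply, hs]
    unfold Phi
    rw [Finset.sum_comm, hs']
    refine Finset.sum_congr rfl fun σ _ => ?_
    rw [← Finset.smul_sum]
    rfl
  · ext a b
    rw [Matrix.toBlocks₂₁, Matrix.of_apply, hs]
    simp
  · ext a b
    rw [Matrix.toBlocks₂₂, Matrix.of_apply, hs, hs']
    rfl

theorem phi_of_UT {r : ℕ} (hm : 0 < m) (c : Perm (Fin m) → K)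
    (a : Fin m → Matrix (Fin r ⊕ Fin r) (Fin r ⊕ Fin r) K) (ha : ∀ j, (a j).toBlocks₂₁ = 0)
    (h : ev c a ≠ 0) :
    ∃ (i : Fin m) (X Y : Fin m → Matrix (Fin r) (Fin r) K) (z : Matrix (Fin r) (Fin r) K),
      Phi c i X Y z ≠ 0 := by
  by_contra hcon
  push Not at hcon
  apply h
  have h1 : a = fun j => Matrix.fromBlocks (a j).toBlocks₁₁ (a j).toBlocks₁₂ 0
      (a j).toBlocks₂₂ := by
    funext j
    rw [← ha j, Matrix.fromBlocks_toBlocks]
  rw [h1, ev_UT]
  rw [ev_eq_Phi c ⟨0, hm⟩, ev_eq_Phi c ⟨0, hm⟩, hcon, hcon]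
  simp only [hcon, Finset.sum_const_zero]
  exact Matrix.fromBlocks_zero

end MLI
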