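import Mathlib

set_option autoImplicit false

/-!
# MP_05d08f_al, module WORD: a balanced unbordered word in three letters
-/

namespace MLI

/-- The letters of the word. -/
def wordVal (n i : ℕ) : ℕ :=
  if n % 3 = 0 then (if i + 2 = n then 2 else if i + 1 = n then 1 else i % 3)
  else (if 3 * (n / 3) ≤ i then i - 3 * (n / 3) + 1 else i % 3)

/-- The position of the `k`-th letter `t`. -/
def wordPos (n t k : ℕ) : ℕ :=
  if n % 3 = 0 ∧ k + 1 = n / 3 ∧ t = 1 then n - 1
  else if n % 3 = 0 ∧ k + 1 = n / 3 ∧ t = 2 then n - 2 else 3 * k + t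

theorem wordVal_lt (n i : ℕ) (h : i < n) : wordVal n i < 3 := by
  unfold wordVal
  split_ifs <;> omega

theorem wordVal_adj (n i : ℕ) (h : i + 1 < n) : wordVal n i ≠ wordVal n (i + 1) := by
  unfold wordVal
  split_ifs <;> omega

theorem wordVal_unb (n d : ℕ) (hd : 1 ≤ d) (hn : d < n) (h3 : 3 ≤ n) :
    ∃ i, i + d < n ∧ wordVal n i ≠ wordVal n (i + d) := by
  by_cases h : wordVal n d = 0
  · have hd3 : d % 3 = 0 := by
      unfold wordVal at h
      split_ifs at h <;> omega
    by_cases he : n % 3 = 0
    · refine ⟨n - 2 - d, ?_, ?_⟩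
      · omega
      · have h1 : d + 2 < n := by
          unfold wordVal at h
          split_ifs at h <;> omega
        have h2 : n - 2 - d + d = n - 2 := by omega
        rw [h2]
        unfold wordVal
        split_ifs <;> omega
    · have h1 : d < 3 * (n / 3) := by
        unfold wordVal at h
        split_ifs at h <;> omega
      refine ⟨3 * (n / 3) - d, ?_, ?_⟩
      · omega
      · have h2 : 3 * (n / 3) - d + d = 3 * (n / 3) := by omega
        rw [h2]
        unfold wordVal
        split_ifs <;> omega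
  · refine ⟨0, by omega, ?_⟩
    have h0 : wordVal n 0 = 0 := by
      unfold wordVal
      split_ifs <;> omega
    rw [h0, zero_add]
    exact fun h' => h h'.symm

theorem wordPos_lt (n t k : ℕ) (ht : t < 3) (hk : k < n / 3) : wordPos n t k < n := by
  unfold wordPos
  split_ifs <;> omega

theorem wordVal_wordPos (n t k : ℕ) (ht : t < 3) (hk : k < n / 3) :
    wordVal n (wordPos n t k) = t := by
  unfold wordVal wordPos
  split_ifs <;> omega

theorem wordPos_inj (n t k l : ℕ) (ht : t < 3) (hk : k < n / 3) (hl : l < n / 3)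
    (h : wordPos n t k = wordPos n t l) : k = l := by
  unfold wordPos at h
  split_ifs at h <;> omega

theorem word (n r : ℕ) (hr : 1 ≤ r) (hn : 3 * r ≤ n) :
    ∃ κ : Fin n → Fin 3,
      (∀ i j : Fin n, (j : ℕ) = i + 1 → κ i ≠ κ j) ∧
      (∀ d : ℕ, 1 ≤ d → d < n → ∃ i j : Fin n, (j : ℕ) = i + d ∧ κ i ≠ κ j) ∧
      ∀ t : Fin 3, r ≤ Fintype.card {x : Fin n // κ x = t} := by
  refine ⟨fun i => ⟨wordVal n i, wordVal_lt n i i.isLt⟩, ?_, ?_, ?_⟩
  · intro i j hij h
    have h1 := Fin.mk.inj_iff.1 h
    rw [hij] at h1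
    exact wordVal_adj n i (by have := j.isLt; omega) h1
  · intro d hd hdn
    obtain ⟨i, hi, hne⟩ := wordVal_unb n d hd hdn (by omega)
    exact ⟨⟨i, by omega⟩, ⟨i + d, hi⟩, rfl, fun h => hne (Fin.mk.inj_iff.1 h)⟩
  · intro t
    have hinj : Function.Injective (fun k : Fin r =>
        (⟨⟨wordPos n t k, wordPos_lt n t k t.isLt (by have := k.isLt; omega)⟩, by
          ext
          exact wordVal_wordPos n t k t.isLt (by have := k.isLt; omega)⟩ :
          {x : Fin n // (⟨wordVal n x, wordVal_lt n x x.isLt⟩ : Fin 3) = t})) := by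
      intro k l hkl
      have h1 := congrArg (fun x => (x.1 : Fin n).val) hkl
      exact Fin.ext (wordPos_inj n t k l t.isLt (by have := k.isLt; omega)
        (by have := l.isLt; omega) h1)
    simpa using Fintype.card_le_of_injective _ hinj

end MLI
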