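import Pool.Agent.Work.MP_05d08f_al.SurjPoint

set_option autoImplicit false

/-!
# MP_05d08f_al: matrices with zero diagonal blocks are values
-/

namespace MLI

open Matrix Equiv

variable {K : Type*} [Field K] {m : ℕ}

theorem zero_blocks [Infinite K] {r : ℕ} (c : Perm (Fin m) → K) (i : Fin m)
    (X0 Y0 : Fin m → Matrix (Fin r) (Fin r) K) (z0 : Matrix (Fin r) (Fin r) K)
    (hne : Phi c i X0 Y0 z0 ≠ 0) {ι B : Type*} [Fintype ι] [DecidableEq ι] [Fintype B]
    [DecidableEq B] (κ : ι → B) (hcard : ∀ b, r ≤ Fintype.card {x // κ x = b})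
    (A : Matrix ι ι K) (hA : ∀ x y, κ x = κ y → A x y = 0) :
    ∃ a : Fin m → Matrix ι ι K, ev c a = A := by
  classical
  let Xf : (Fin m × ι × ι → K) → Fin m → ∀ b : B, Matrix {x // κ x = b} {x // κ x = b} K :=
    fun w j b => Matrix.of fun x y => w (j, x.1, y.1)
  obtain ⟨w, hw⟩ := exists_common (J := Fin m × ι × ι) (K := K) (ι := B × B) Finset.univ
    (P := fun t w => if t.1 = t.2 then 1 else
      (Pmat c i (fun j => Xf w j t.1) (fun j => Xf w j t.2)).det) (by
      intro t _
      exact IsPoly.ite _ (IsPoly.const _) (IsPoly.Pmat c i (X := fun w j => Xf w j t.1)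
        (Y := fun w j => Xf w j t.2) (fun j a b => IsPoly.coord _) (fun j a b => IsPoly.coord _)))
      (by
      rintro ⟨p, q⟩ _
      by_cases hpq : p = q
      · exact ⟨fun _ => 0, by simp [hpq]⟩
      · obtain ⟨X, Y, hXY⟩ := surj_point c i X0 Y0 z0 hne (hcard p) (hcard q)
        refine ⟨fun t => if h : κ t.2.1 = p ∧ κ t.2.2 = p then X t.1 ⟨t.2.1, h.1⟩ ⟨t.2.2, h.2⟩
          else if h : κ t.2.1 = q ∧ κ t.2.2 = q then Y t.1 ⟨t.2.1, h.1⟩ ⟨t.2.2, h.2⟩ else 0, ?_⟩
        simp only [if_neg hpq]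
        convert hXY using 4
        · rename_i j
          ext x y
          simp only [Xf, Matrix.of_apply]
          rw [dif_pos ⟨x.2, y.2⟩]
        · rename_i j
          ext x y
          simp only [Xf, Matrix.of_apply]
          rw [dif_neg, dif_pos ⟨x.2, y.2⟩]
          rintro ⟨h1, _⟩
          exact hpq (h1.symm.trans x.2))
  let e : (Σ b : B, {x // κ x = b}) ≃ ι := Equiv.sigmaFiberEquiv κ
  obtain ⟨a, ha⟩ := hit_of_blocks (s := fun b : B => {x // κ x = b}) c i (Xf w)
    (A.submatrix e e) (by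
    intro p q
    by_cases hpq : p = q
    · subst hpq
      refine ⟨0, ?_⟩
      rw [Phi_zero]
      ext x y
      have h1 : A x.1 y.1 = 0 := hA _ _ (x.2.trans y.2.symm)
      exact h1.symm
    · have h1 := hw (p, q) (Finset.mem_univ _)
      simp only [if_neg hpq] at h1
      exact Phi_surj_of_det c i _ _ h1 _)
  refine ⟨fun j => (a j).submatrix e.symm e.symm, ?_⟩
  rw [ev_submatrix, ha]
  ext x y
  simp

end MLI
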