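import Pool.Agent.Work.MP_05d08f_al.TwoGen
import Pool.Agent.Work.MP_05d08f_al.ZeroBlocks
import Pool.Agent.Work.MP_05d08f_al.UTsplit
import Pool.Agent.Work.MP_05d08f_al.Word
import Pool.Agent.Work.MP_05d08f_al.Hess
import Pool.Agent.Work.MP_05d08f_al.Hollow
import Pool.Agent.Work.MP_05d08f_al.Stair

set_option autoImplicit false

/-!
# MP_05d08f_al: assembly
-/

namespace MLI

open Matrix Equiv

variable {K : Type*} [Field K] {m : ℕ}

theorem hit_of_conj {ι : Type*} [Fintype ι] [DecidableEq ι] (c : Perm (Fin m) → K)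
    (B G G' : Matrix ι ι K) (h1 : G * G' = 1) (h2 : G' * G = 1)
    (h : ∃ a : Fin m → Matrix ι ι K, ev c a = G' * B * G) :
    ∃ a : Fin m → Matrix ι ι K, ev c a = B := by
  obtain ⟨a, ha⟩ := h
  refine ⟨fun j => G * a j * G', ?_⟩
  rw [ev_conj c a G G' h2 h1, ha]
  have h3 : G * (G' * B * G) * G' = (G * G') * B * (G * G') := by
    simp only [Matrix.mul_assoc]
  rw [h3, h1, Matrix.one_mul, Matrix.mul_one]

theorem scalar_submatrix {ι κ : Type*} [Fintype ι] [DecidableEq ι] [Fintype κ] [DecidableEq κ]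
    (e : κ ≃ ι) (t : K) : (Matrix.scalar ι t).submatrix e e = Matrix.scalar κ t := by
  ext x y
  simp [Matrix.scalar_apply, Matrix.diagonal_apply]

theorem even_size [Infinite K] (c : Perm (Fin m) → K) (b : Fin m → Matrix (Fin 2) (Fin 2) K)
    (hb : ∀ t : K, ev c b ≠ Matrix.scalar (Fin 2) t) {n : ℕ} (hn : Even n)
    (B : Matrix (Fin n) (Fin n) K) (htr : B.trace = 0)
    (hB : B = 0 ∨ ∀ t : K, B ≠ Matrix.scalar (Fin n) t) :
    ∃ a : Fin m → Matrix (Fin n) (Fin n) K, ev c a = B := by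
  obtain ⟨G, G', h1, h2, h3⟩ := exists_hollow B htr hB
  refine hit_of_conj c B G G' h1 h2 ?_
  obtain ⟨k, hk⟩ := hn
  let e : ZMod 2 ≃ Fin 2 := Fintype.equivOfCardEq (by simp [ZMod.card])
  refine even_hit c (fun j => (b j).submatrix e e) ?_ (k := k) (by omega) _ h3
  intro t ht
  rw [ev_submatrix] at ht
  apply hb t
  have h4 := congrArg (fun M => M.submatrix e.symm e.symm) ht
  simp only [Matrix.submatrix_submatrix, Equiv.self_comp_symm, Matrix.submatrix_id_id] at h4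
  rw [h4, scalar_submatrix]

/-- Non identities of `UT_2`: every trace zero matrix that is zero or not scalar is a value. -/
theorem ut_two [Infinite K] (hm : 0 < m) (c : Perm (Fin m) → K)
    (b : Fin m → Matrix (Fin 2) (Fin 2) K)
    (hb : ∀ j, b j 1 0 = 0) (hb' : ev c b ≠ 0) {n : ℕ}
    (B : Matrix (Fin n) (Fin n) K) (htr : B.trace = 0)
    (hB : B = 0 ∨ ∀ t : K, B ≠ Matrix.scalar (Fin n) t) :
    ∃ a : Fin m → Matrix (Fin n) (Fin n) K, ev c a = B := by
  obtain ⟨G, G', h1, h2, h3⟩ := exists_hollow B htr hB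
  refine hit_of_conj c B G G' h1 h2 ?_
  let e : Fin 1 ⊕ Fin 1 ≃ Fin 2 := finSumFinEquiv
  obtain ⟨i, X, Y, z, hz⟩ := phi_of_UT (r := 1) hm c (fun j => (b j).submatrix e e) (by
    intro j
    ext x y
    have hx : x = 0 := Subsingleton.elim _ _
    have hy : y = 0 := Subsingleton.elim _ _
    subst hx hy
    exact hb j) (by
    intro h
    rw [ev_submatrix] at h
    apply hb'
    have h4 := congrArg (fun M => M.submatrix e.symm e.symm) h
    simpa using h4)
  refine zero_blocks (r := 1) c i X Y z hz (B := Fin n) id ?_ _ ?_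
  · intro b
    simp
  · intro x y hxy
    have : x = y := hxy
    subst this
    exact h3 x

theorem cyclic_hit [Infinite K] {r : ℕ} (c : Perm (Fin m) → K) (i : Fin m)
    (X0 Y0 : Fin m → Matrix (Fin r) (Fin r) K) (z0 : Matrix (Fin r) (Fin r) K)
    (hne : Phi c i X0 Y0 z0 ≠ 0) {n : ℕ} (hn : 3 * r ≤ n)
    (B : Matrix (Fin n) (Fin n) K) (htr : B.trace = 0)
    (v : Fin n → K) (hv : LinearIndependent K (fun k : Fin n => (B ^ (k : ℕ)) *ᵥ v)) :
    ∃ a : Fin m → Matrix (Fin n) (Fin n) K, ev c a = B := by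
  rcases Nat.eq_zero_or_pos r with hr | hr
  · subst hr
    exact absurd (Subsingleton.elim (Phi c i X0 Y0 z0) 0) hne
  · obtain ⟨κ, ha, hu, hk⟩ := word n r hr hn
    obtain ⟨G, G', h1, h2, h3⟩ := hess B htr v hv κ ha hu
    refine hit_of_conj c B G G' h1 h2 ?_
    exact zero_blocks c i X0 Y0 z0 hne κ hk _ h3

/-- The hypothesis on `f` used for zero diagonal blocks of size `r`. -/
theorem phi_of_hyp {r : ℕ} (hm : 0 < m) (c : Perm (Fin m) → K)
    (h : (c ≠ 0 ∧ m < 4 * r) ∨ ∃ b : Fin m → Matrix (Fin r ⊕ Fin r) (Fin r ⊕ Fin r) K,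
      (∀ j, (b j).toBlocks₂₁ = 0) ∧ ev c b ≠ 0) :
    ∃ (i : Fin m) (X Y : Fin m → Matrix (Fin r) (Fin r) K) (z : Matrix (Fin r) (Fin r) K),
      Phi c i X Y z ≠ 0 := by
  rcases h with ⟨h1, h2⟩ | ⟨b, hb, hb'⟩
  · exact phi_of_degree hm h2 c h1
  · exact phi_of_UT hm c b hb hb'

end MLI
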