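import Mathlib
import Pool.Agent.Work.MP_05d08f_al.AS.Main

set_option autoImplicit false

/-!
# The asymptotic weak Lvov-Kaplansky theorem

For every degree `m` and all `n ≥ N(m)`: every nonzero multilinear polynomial of degree `m` over an
infinite field of characteristic zero or larger than `P(m)` takes every trace zero matrix as a value
on `M_n(K)`.
-/

namespace Pool.Agent.Work.MP_05d08f_al.AsymptoticWithdrawn

open Matrix

/-- For every `m > 0` there are `N, P, s` such that for every infinite field `K`, every nonzero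
multilinear polynomial `f = ∑ c σ x_{σ 0} ⋯ x_{σ (m-1)}` over `K` and every `n ≥ N` the matrix
`B ∈ M_n(K)` of trace zero is a value of `f` if

* either `rank (B - t) ≥ s` for all `t ≠ 0` (any characteristic),
* or the characteristic of `K` is `0` or larger than `P`, and `n ≠ 0` in `K` or `B = 0` or `B` is not
  scalar. -/
theorem result (m : ℕ) (hm : 0 < m) : ∃ N P s : ℕ, ∀ (K : Type) [Field K] [Infinite K]
    (c : Equiv.Perm (Fin m) → K), c ≠ 0 → ∀ n : ℕ, N ≤ n → ∀ B : Matrix (Fin n) (Fin n) K,
      B.trace = 0 →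
      ((∀ t : K, t ≠ 0 → s ≤ (B - t • (1 : Matrix (Fin n) (Fin n) K)).rank) ∨
        ((∀ q : ℕ, 0 < q → q ≤ P → (q : K) ≠ 0) ∧
          ((n : K) ≠ 0 ∨ B = 0 ∨ ∀ t : K, B ≠ t • (1 : Matrix (Fin n) (Fin n) K)))) →
      ∃ a : Fin m → Matrix (Fin n) (Fin n) K,
        (∑ σ : Equiv.Perm (Fin m), c σ • (List.ofFn (fun k => a (σ k))).prod) = B := by
  obtain ⟨N, P, h⟩ := ALK.main m hm
  refine ⟨N + (2 * ALK.sig m + 1) * (m + 1), P, ALK.sig m, ?_⟩
  intro K _ _ c hc n hn B htr hB
  rcases hB with hB | ⟨hK, hB⟩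
  · by_cases h0 : ALK.sig m ≤ B.rank
    · refine ALK.zb_value hm (show m < 4 * m by omega) c hc (ALK.la_main hm B htr fun μ => ?_)
      by_cases hμ : μ = 0
      · rw [hμ, zero_smul, sub_zero]
        exact h0
      · exact hB μ hμ
    · exact ALK.zb_value hm (show m < 4 * m by omega) c hc
        (ALK.low_zb (r := m) (ρ := ALK.sig m) B htr (not_le.1 h0).le
          (by rw [Fintype.card_fin]; omega))
  · exact h K hK c hc n (by omega) B htr hB

end Pool.Agent.Work.MP_05d08f_al.AsymptoticWithdrawn
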