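import Mathlib

set_option autoImplicit false

/-!
# MP_05d08f_al: basic definitions

`ev c a` is the value of the multilinear polynomial `∑ σ, c σ x_{σ 0} ⋯ x_{σ (m-1)}` at the square
matrices `a 0, …, a (m-1)`.  For a letter `i`, `wl σ i` and `wr σ i` are the words to the left and to the
right of `i` in the word `σ`, and `Phi c i X Y z = ∑ σ, c σ • (X-product of wl) z (Y-product of wr)`.
-/

namespace MLI

open Matrix Equiv

variable {K : Type*} [Field K] {m : ℕ}

/-- Value of the multilinear polynomial with coefficients `c`. -/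
def ev {ι : Type*} [Fintype ι] [DecidableEq ι]
    (c : Perm (Fin m) → K) (a : Fin m → Matrix ι ι K) : Matrix ι ι K :=
  ∑ σ : Perm (Fin m), c σ • (List.ofFn fun k => a (σ k)).prod

/-- Letters to the left of `i` in the word `σ`. -/
def wl (σ : Perm (Fin m)) (i : Fin m) : List (Fin m) :=
  (List.ofFn fun k => σ k).take (σ.symm i).val

/-- Letters to the right of `i` in the word `σ`. -/
def wr (σ : Perm (Fin m)) (i : Fin m) : List (Fin m) :=
  (List.ofFn fun k => σ k).drop ((σ.symm i).val + 1)

/-- The word `σ`, with the left part evaluated at `X`, the letter `i` at `z`, the right part at `Y`. -/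
def Phi {α β : Type*} [Fintype α] [DecidableEq α] [Fintype β] [DecidableEq β]
    (c : Perm (Fin m) → K) (i : Fin m)
    (X : Fin m → Matrix α α K) (Y : Fin m → Matrix β β K) (z : Matrix α β K) : Matrix α β K :=
  ∑ σ : Perm (Fin m), c σ • (((wl σ i).map X).prod * z * ((wr σ i).map Y).prod)

theorem ofFn_split (σ : Perm (Fin m)) (i : Fin m) :
    (List.ofFn fun k => σ k) = wl σ i ++ i :: wr σ i := by
  have hlen : (σ.symm i).val < (List.ofFn fun k => σ k).length := by
    rw [List.length_ofFn]; exact (σ.symm i).isLt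
  have h1 := (List.take_append_drop (σ.symm i).val (List.ofFn fun k => σ k)).symm
  rw [List.drop_eq_getElem_cons hlen] at h1
  have h2 : (List.ofFn fun k => σ k)[(σ.symm i).val] = i := by
    rw [List.getElem_ofFn]; simp
  rw [h2] at h1
  exact h1

theorem nodup_word (σ : Perm (Fin m)) : (List.ofFn fun k => σ k).Nodup :=
  List.nodup_ofFn.2 σ.injective

theorem nodup_split (σ : Perm (Fin m)) (i : Fin m) : (wl σ i ++ i :: wr σ i).Nodup := by
  rw [← ofFn_split]; exact nodup_word σ

theorem not_mem_wl (σ : Perm (Fin m)) (i : Fin m) : i ∉ wl σ i := by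
  intro h
  have h1 := nodup_split σ i
  rw [List.nodup_append] at h1
  exact h1.2.2 i h i (by simp) rfl

theorem not_mem_wr (σ : Perm (Fin m)) (i : Fin m) : i ∉ wr σ i := by
  have h1 := nodup_split σ i
  rw [List.nodup_append] at h1
  exact (List.nodup_cons.1 h1.2.1).1

theorem wl_wr_disjoint (σ : Perm (Fin m)) (i j : Fin m) (h : j ∈ wl σ i) : j ∉ wr σ i := by
  have h1 := nodup_split σ i
  rw [List.nodup_append] at h1
  intro h2
  exact h1.2.2 j h j (by simp [h2]) rfl

theorem nodup_wl (σ : Perm (Fin m)) (i : Fin m) : (wl σ i).Nodup := by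
  have h1 := nodup_split σ i
  rw [List.nodup_append] at h1
  exact h1.1

theorem nodup_wr (σ : Perm (Fin m)) (i : Fin m) : (wr σ i).Nodup := by
  have h1 := nodup_split σ i
  rw [List.nodup_append] at h1
  exact (List.nodup_cons.1 h1.2.1).2

theorem mem_wl_or_wr (σ : Perm (Fin m)) (i j : Fin m) (h : j ≠ i) : j ∈ wl σ i ∨ j ∈ wr σ i := by
  have h1 : j ∈ (List.ofFn fun k => σ k) := by
    rw [List.mem_ofFn]; exact ⟨σ.symm j, by simp⟩
  rw [ofFn_split σ i, List.mem_append, List.mem_cons] at h1
  rcases h1 with h1 | h1 | h1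
  · exact Or.inl h1
  · exact absurd h1 h
  · exact Or.inr h1

section Square

variable {ι : Type*} [Fintype ι] [DecidableEq ι]

theorem prod_word (σ : Perm (Fin m)) (i : Fin m) (X : Fin m → Matrix ι ι K) :
    (List.ofFn fun k => X (σ k)).prod =
      ((wl σ i).map X).prod * X i * ((wr σ i).map X).prod := by
  have h : (List.ofFn fun k => X (σ k)) = (List.ofFn fun k => σ k).map X := by
    rw [List.map_ofFn]; rfl
  rw [h, ofFn_split σ i, List.map_append, List.prod_append, List.map_cons, List.prod_cons, mul_assoc]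

theorem ev_eq_Phi (c : Perm (Fin m) → K) (i : Fin m) (X : Fin m → Matrix ι ι K) :
    ev c X = Phi c i X X (X i) := by
  unfold ev Phi
  exact Finset.sum_congr rfl fun σ _ => by rw [prod_word σ i]

end Square

section Rect

variable {α β : Type*} [Fintype α] [DecidableEq α] [Fintype β] [DecidableEq β]

/-- `Phi` depends only on the letters different from `i`. -/
theorem Phi_congr (c : Perm (Fin m) → K) (i : Fin m) {X X' : Fin m → Matrix α α K}
    {Y Y' : Fin m → Matrix β β K} (z : Matrix α β K) (hX : ∀ j, j ≠ i → X j = X' j)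
    (hY : ∀ j, j ≠ i → Y j = Y' j) : Phi c i X Y z = Phi c i X' Y' z := by
  unfold Phi
  refine Finset.sum_congr rfl fun σ _ => ?_
  have h1 : (wl σ i).map X = (wl σ i).map X' :=
    List.map_congr_left fun j hj => hX j fun h => not_mem_wl σ i (h ▸ hj)
  have h2 : (wr σ i).map Y = (wr σ i).map Y' :=
    List.map_congr_left fun j hj => hY j fun h => not_mem_wr σ i (h ▸ hj)
  rw [h1, h2]

theorem Phi_add (c : Perm (Fin m) → K) (i : Fin m) (X : Fin m → Matrix α α K)
    (Y : Fin m → Matrix β β K) (z w : Matrix α β K) :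
    Phi c i X Y (z + w) = Phi c i X Y z + Phi c i X Y w := by
  unfold Phi
  rw [← Finset.sum_add_distrib]
  refine Finset.sum_congr rfl fun σ _ => ?_
  rw [Matrix.mul_add, Matrix.add_mul, smul_add]

theorem Phi_smul (c : Perm (Fin m) → K) (i : Fin m) (X : Fin m → Matrix α α K)
    (Y : Fin m → Matrix β β K) (t : K) (z : Matrix α β K) :
    Phi c i X Y (t • z) = t • Phi c i X Y z := by
  unfold Phi
  rw [Finset.smul_sum]
  refine Finset.sum_congr rfl fun σ _ => ?_
  rw [Matrix.mul_smul, Matrix.smul_mul, smul_comm]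

/-- `Phi` as a linear map in `z`. -/
def PhiL (c : Perm (Fin m) → K) (i : Fin m) (X : Fin m → Matrix α α K)
    (Y : Fin m → Matrix β β K) : Matrix α β K →ₗ[K] Matrix α β K where
  toFun := Phi c i X Y
  map_add' := Phi_add c i X Y
  map_smul' := Phi_smul c i X Y

theorem Phi_zero (c : Perm (Fin m) → K) (i : Fin m) (X : Fin m → Matrix α α K)
    (Y : Fin m → Matrix β β K) : Phi c i X Y 0 = 0 := (PhiL c i X Y).map_zero

/-- Entries of `Phi`. -/
theorem Phi_apply (c : Perm (Fin m) → K) (i : Fin m) (X : Fin m → Matrix α α K)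
    (Y : Fin m → Matrix β β K) (z : Matrix α β K) (a : α) (b : β) :
    Phi c i X Y z a b = ∑ σ : Perm (Fin m), ∑ a' : α, ∑ b' : β,
      c σ * (((wl σ i).map X).prod a a' * z a' b' * ((wr σ i).map Y).prod b' b) := by
  unfold Phi
  rw [Matrix.sum_apply]
  refine Finset.sum_congr rfl fun σ _ => ?_
  rw [Matrix.smul_apply, Matrix.mul_apply, smul_eq_mul, Finset.mul_sum, Finset.sum_comm]
  refine Finset.sum_congr rfl fun b' _ => ?_
  rw [Matrix.mul_apply, Finset.sum_mul, Finset.mul_sum]

end Rect

section Update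

variable {ι : Type*} [Fintype ι] [DecidableEq ι]

theorem ev_update (c : Perm (Fin m) → K) (i : Fin m) (X : Fin m → Matrix ι ι K)
    (z : Matrix ι ι K) : ev c (Function.update X i z) = Phi c i X X z := by
  rw [ev_eq_Phi c i, Function.update_self]
  exact Phi_congr c i z (fun j hj => Function.update_of_ne hj _ _)
    (fun j hj => Function.update_of_ne hj _ _)

/-- Conjugation invariance. -/
theorem ev_conj (c : Perm (Fin m) → K) (a : Fin m → Matrix ι ι K) (G G' : Matrix ι ι K)
    (h : G' * G = 1) (h' : G * G' = 1) :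
    ev c (fun j => G * a j * G') = G * ev c a * G' := by
  unfold ev
  rw [Finset.mul_sum, Finset.sum_mul]
  refine Finset.sum_congr rfl fun σ _ => ?_
  rw [Matrix.mul_smul, Matrix.smul_mul]
  congr 1
  have key : ∀ l : List (Matrix ι ι K), (l.map fun x => G * x * G').prod = G * l.prod * G' := by
    intro l
    induction l with
    | nil => simp [h']
    | cons x l ih =>
      rw [List.map_cons, List.prod_cons, ih, List.prod_cons]
      calc G * x * G' * (G * l.prod * G') = G * x * (G' * G) * l.prod * G' := by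
            simp only [mul_assoc]
        _ = G * (x * l.prod) * G' := by rw [h, mul_one]; simp only [mul_assoc]
  have h2 : (List.ofFn fun k => G * a (σ k) * G') =
      (List.ofFn fun k => a (σ k)).map fun x => G * x * G' := by
    rw [List.map_ofFn]; rfl
  rw [h2, key]

end Update

/-- Products and `submatrix` along equivalences. -/
theorem prod_map_submatrix {ι κ : Type*} [Fintype ι] [DecidableEq ι] [Fintype κ] [DecidableEq κ]
    (e : κ ≃ ι) (X : Fin m → Matrix ι ι K) (l : List (Fin m)) :
    (l.map fun j => (X j).submatrix e e).prod = ((l.map X).prod).submatrix e e := by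
  induction l with
  | nil => simp
  | cons j l ih =>
    rw [List.map_cons, List.prod_cons, ih, List.map_cons, List.prod_cons,
      Matrix.submatrix_mul_equiv]

theorem Phi_submatrix {α β α' β' : Type*} [Fintype α] [DecidableEq α] [Fintype β] [DecidableEq β]
    [Fintype α'] [DecidableEq α'] [Fintype β'] [DecidableEq β']
    (e : α' ≃ α) (f : β' ≃ β) (c : Perm (Fin m) → K) (i : Fin m)
    (X : Fin m → Matrix α α K) (Y : Fin m → Matrix β β K) (z : Matrix α β K) :
    Phi c i (fun j => (X j).submatrix e e) (fun j => (Y j).submatrix f f) (z.submatrix e f) =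
      (Phi c i X Y z).submatrix e f := by
  unfold Phi
  ext a b
  rw [Matrix.sum_apply, Matrix.submatrix_apply, Matrix.sum_apply]
  refine Finset.sum_congr rfl fun σ _ => ?_
  rw [prod_map_submatrix, prod_map_submatrix, Matrix.submatrix_mul_equiv,
    Matrix.submatrix_mul_equiv]
  rfl

theorem ev_submatrix {ι κ : Type*} [Fintype ι] [DecidableEq ι] [Fintype κ] [DecidableEq κ]
    (e : κ ≃ ι) (c : Perm (Fin m) → K) (a : Fin m → Matrix ι ι K) :
    ev c (fun j => (a j).submatrix e e) = (ev c a).submatrix e e := by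
  unfold ev
  ext x y
  rw [Matrix.sum_apply, Matrix.submatrix_apply, Matrix.sum_apply]
  refine Finset.sum_congr rfl fun σ _ => ?_
  have h1 : (List.ofFn fun k => (a (σ k)).submatrix e e) =
      (List.ofFn fun k => σ k).map fun j => (a j).submatrix e e := by
    rw [List.map_ofFn]; rfl
  have h2 : (List.ofFn fun k => a (σ k)) = (List.ofFn fun k => σ k).map a := by
    rw [List.map_ofFn]; rfl
  rw [h1, h2, prod_map_submatrix]
  rfl

/-- Block diagonal families: the `(p, q)` block of `f(…, z, …)` is `Phi` of the blocks `p`, `q`. -/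
theorem ev_block {B : Type*} [Fintype B] [DecidableEq B] {s : B → Type*}
    [∀ b, Fintype (s b)] [∀ b, DecidableEq (s b)]
    (c : Perm (Fin m) → K) (i : Fin m) (X : Fin m → ∀ b, Matrix (s b) (s b) K)
    (z : Matrix (Σ b, s b) (Σ b, s b) K) (p q : B) (a : s p) (b : s q) :
    ev c (Function.update (fun j => Matrix.blockDiagonal' (X j)) i z) ⟨p, a⟩ ⟨q, b⟩ =
      Phi c i (fun j => X j p) (fun j => X j q) (Matrix.of fun a' b' => z ⟨p, a'⟩ ⟨q, b'⟩) a b := by
  have key : ∀ l : List (Fin m), (l.map fun j => Matrix.blockDiagonal' (X j)).prod =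
      Matrix.blockDiagonal' (fun b => (l.map fun j => X j b).prod) := by
    intro l
    induction l with
    | nil =>
      simp only [List.map_nil, List.prod_nil]
      exact (Matrix.blockDiagonal'_one).symm
    | cons j l ih =>
      simp only [List.map_cons, List.prod_cons]
      rw [ih, ← Matrix.blockDiagonal'_mul]
  rw [ev_update, Phi_apply, Phi_apply]
  refine Finset.sum_congr rfl fun σ _ => ?_
  rw [key, key, Fintype.sum_sigma]
  rw [Finset.sum_eq_single p]
  · refine Finset.sum_congr rfl fun a' _ => ?_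
    rw [Fintype.sum_sigma, Finset.sum_eq_single q]
    · refine Finset.sum_congr rfl fun b' _ => ?_
      rw [Matrix.blockDiagonal'_apply_eq, Matrix.blockDiagonal'_apply_eq]
      rfl
    · intro q' _ hq'
      refine Finset.sum_eq_zero fun b' _ => ?_
      rw [Matrix.blockDiagonal'_apply_ne _ _ _ hq']
      simp
    · intro h; exact absurd (Finset.mem_univ q) h
  · intro p' _ hp'
    refine Finset.sum_eq_zero fun a' _ => ?_
    refine Finset.sum_eq_zero fun b' _ => ?_
    rw [Matrix.blockDiagonal'_apply_ne _ _ _ (Ne.symm hp')]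
    simp
  · intro h; exact absurd (Finset.mem_univ p) h

/-- If every block equation `Phi (X p) (X q) z = A_{pq}` is solvable then `A` is a value. -/
theorem hit_of_blocks {B : Type*} [Fintype B] [DecidableEq B] {s : B → Type*}
    [∀ b, Fintype (s b)] [∀ b, DecidableEq (s b)]
    (c : Perm (Fin m) → K) (i : Fin m) (X : Fin m → ∀ b, Matrix (s b) (s b) K)
    (A : Matrix (Σ b, s b) (Σ b, s b) K)
    (h : ∀ p q : B, ∃ z : Matrix (s p) (s q) K,
      Phi c i (fun j => X j p) (fun j => X j q) z = Matrix.of fun a b => A ⟨p, a⟩ ⟨q, b⟩) :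
    ∃ a : Fin m → Matrix (Σ b, s b) (Σ b, s b) K, ev c a = A := by
  choose z hz using h
  refine ⟨Function.update (fun j => Matrix.blockDiagonal' (X j)) i
    (Matrix.of fun x y => z x.1 y.1 x.2 y.2), ?_⟩
  ext ⟨p, a⟩ ⟨q, b⟩
  rw [ev_block]
  have h1 := hz p q
  have h2 : (Matrix.of fun a' b' => (Matrix.of fun (x y : Σ b, s b) => z x.1 y.1 x.2 y.2)
      ⟨p, a'⟩ ⟨q, b'⟩ : Matrix (s p) (s q) K) = z p q := by
    ext a' b'; rfl
  rw [h2, h1]
  rfl

end MLI
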