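import Pool.Agent.Work.MP_05d08f_al.Basic

set_option autoImplicit false

/-!
# MP_05d08f_al, module EXPAND: multilinear expansion of `Phi` into matrix units
-/

namespace MLI

open Matrix Equiv

variable {K : Type*} [Field K] {m : ℕ}

section

variable {r : ℕ}

/-- The map `(U, V) ↦ Phi` with the letter `j` replaced is additive, `j ≠ i`. -/
theorem Phi_update_add (c : Perm (Fin m) → K) (i j : Fin m) (hj : j ≠ i)
    (X Y : Fin m → Matrix (Fin r) (Fin r) K) (z : Matrix (Fin r) (Fin r) K)
    (U V U' V' : Matrix (Fin r) (Fin r) K) :
    Phi c i (Function.update X j (U + U')) (Function.update Y j (V + V')) z =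
      Phi c i (Function.update X j U) (Function.update Y j V) z +
        Phi c i (Function.update X j U') (Function.update Y j V') z := by
  unfold Phi
  rw [← Finset.sum_add_distrib]
  refine Finset.sum_congr rfl fun σ _ => ?_
  rw [← smul_add]
  congr 1
  have key : ∀ (l : List (Fin m)) (Z : Fin m → Matrix (Fin r) (Fin r) K), j ∉ l →
      ∀ W, (l.map (Function.update Z j W)) = l.map Z := by
    intro l Z hl W
    refine List.map_congr_left fun k hk => Function.update_of_ne ?_ _ _
    rintro rfl
    exact hl hk
  rcases mem_wl_or_wr σ i j hj with h | h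
  · have h' := wl_wr_disjoint σ i j h
    obtain ⟨l1, l2, hl⟩ := List.append_of_mem h
    have hnd := nodup_wl σ i
    rw [hl] at hnd
    have h1 : j ∉ l1 := by
      intro h3
      rw [List.nodup_append] at hnd
      exact hnd.2.2 j h3 j (by simp) rfl
    have h2 : j ∉ l2 := by
      rw [List.nodup_append] at hnd
      exact (List.nodup_cons.1 hnd.2.1).1
    simp only [hl, List.map_append, List.map_cons, List.prod_append, List.prod_cons,
      Function.update_self, key l1 X h1, key l2 X h2, key _ Y h']
    simp only [add_mul, mul_add]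
  · have h' : j ∉ wl σ i := fun h3 => wl_wr_disjoint σ i j h3 h
    obtain ⟨l1, l2, hl⟩ := List.append_of_mem h
    have hnd := nodup_wr σ i
    rw [hl] at hnd
    have h1 : j ∉ l1 := by
      intro h3
      rw [List.nodup_append] at hnd
      exact hnd.2.2 j h3 j (by simp) rfl
    have h2 : j ∉ l2 := by
      rw [List.nodup_append] at hnd
      exact (List.nodup_cons.1 hnd.2.1).1
    simp only [hl, List.map_append, List.map_cons, List.prod_append, List.prod_cons,
      Function.update_self, key l1 Y h1, key l2 Y h2, key _ X h']
    simp only [add_mul, mul_add]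

theorem Phi_update_smul (c : Perm (Fin m) → K) (i j : Fin m) (hj : j ≠ i)
    (X Y : Fin m → Matrix (Fin r) (Fin r) K) (z : Matrix (Fin r) (Fin r) K) (t : K)
    (U V : Matrix (Fin r) (Fin r) K) :
    Phi c i (Function.update X j (t • U)) (Function.update Y j (t • V)) z =
      t • Phi c i (Function.update X j U) (Function.update Y j V) z := by
  unfold Phi
  rw [Finset.smul_sum]
  refine Finset.sum_congr rfl fun σ _ => ?_
  rw [smul_comm t (c σ)]
  congr 1
  have key : ∀ (l : List (Fin m)) (Z : Fin m → Matrix (Fin r) (Fin r) K), j ∉ l →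
      ∀ W, (l.map (Function.update Z j W)) = l.map Z := by
    intro l Z hl W
    refine List.map_congr_left fun k hk => Function.update_of_ne ?_ _ _
    rintro rfl
    exact hl hk
  rcases mem_wl_or_wr σ i j hj with h | h
  · have h' := wl_wr_disjoint σ i j h
    obtain ⟨l1, l2, hl⟩ := List.append_of_mem h
    have hnd := nodup_wl σ i
    rw [hl] at hnd
    have h1 : j ∉ l1 := by
      intro h3
      rw [List.nodup_append] at hnd
      exact hnd.2.2 j h3 j (by simp) rfl
    have h2 : j ∉ l2 := by
      rw [List.nodup_append] at hnd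
      exact (List.nodup_cons.1 hnd.2.1).1
    simp only [hl, List.map_append, List.map_cons, List.prod_append, List.prod_cons,
      Function.update_self, key l1 X h1, key l2 X h2, key _ Y h']
    simp only [smul_mul_assoc, mul_smul_comm]
  · have h' : j ∉ wl σ i := fun h3 => wl_wr_disjoint σ i j h3 h
    obtain ⟨l1, l2, hl⟩ := List.append_of_mem h
    have hnd := nodup_wr σ i
    rw [hl] at hnd
    have h1 : j ∉ l1 := by
      intro h3
      rw [List.nodup_append] at hnd
      exact hnd.2.2 j h3 j (by simp) rfl
    have h2 : j ∉ l2 := by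
      rw [List.nodup_append] at hnd
      exact (List.nodup_cons.1 hnd.2.1).1
    simp only [hl, List.map_append, List.map_cons, List.prod_append, List.prod_cons,
      Function.update_self, key l1 Y h1, key l2 Y h2, key _ X h']
    simp only [smul_mul_assoc, mul_smul_comm]

/-- The pair `(U, V)` as an argument of a linear map. -/
def PhiJ (c : Perm (Fin m) → K) (i j : Fin m) (hj : j ≠ i)
    (X Y : Fin m → Matrix (Fin r) (Fin r) K) (z : Matrix (Fin r) (Fin r) K) :
    Matrix (Fin r) (Fin r) K × Matrix (Fin r) (Fin r) K →ₗ[K] Matrix (Fin r) (Fin r) K where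
  toFun p := Phi c i (Function.update X j p.1) (Function.update Y j p.2) z
  map_add' p q := Phi_update_add c i j hj X Y z p.1 p.2 q.1 q.2
  map_smul' t p := Phi_update_smul c i j hj X Y z t p.1 p.2

theorem exists_units_step (c : Perm (Fin m) → K) (i j : Fin m) (hj : j ≠ i)
    (X Y : Fin m → Matrix (Fin r) (Fin r) K) (z : Matrix (Fin r) (Fin r) K)
    (h : Phi c i X Y z ≠ 0) :
    ∃ (b : Bool) (u v : Fin r), Phi c i
      (Function.update X j (if b then Matrix.single u v (1 : K) else 0))
      (Function.update Y j (if b then 0 else Matrix.single u v (1 : K))) z ≠ 0 := by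
  by_contra hcon
  push Not at hcon
  have h1 : Phi c i X Y z = PhiJ c i j hj X Y z (X j, Y j) := by
    simp only [PhiJ, LinearMap.coe_mk, AddHom.coe_mk, Function.update_eq_self]
  have h2 : (X j, Y j) = ∑ u, ∑ v, (X j u v • (Matrix.single u v (1 : K), (0 : Matrix (Fin r) (Fin r) K))
      + Y j u v • ((0 : Matrix (Fin r) (Fin r) K), Matrix.single u v (1 : K))) := by
    have h3 : ∀ Z : Matrix (Fin r) (Fin r) K, Z = ∑ u, ∑ v, Z u v • Matrix.single u v (1 : K) := by
      intro Z
      conv_lhs => rw [Matrix.matrix_eq_sum_single Z]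
      refine Finset.sum_congr rfl fun u _ => Finset.sum_congr rfl fun v _ => ?_
      rw [Matrix.smul_single, smul_eq_mul, mul_one]
    have h4 : ∀ u v : Fin r, (X j u v • (Matrix.single u v (1 : K), (0 : Matrix (Fin r) (Fin r) K))
        + Y j u v • ((0 : Matrix (Fin r) (Fin r) K), Matrix.single u v (1 : K))) =
        (X j u v • Matrix.single u v (1 : K), Y j u v • Matrix.single u v (1 : K)) := by
      intro u v
      rw [Prod.smul_mk, Prod.smul_mk, Prod.mk_add_mk, smul_zero, add_zero, smul_zero, zero_add]
    simp only [h4]
    refine Prod.ext ?_ ?_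
    · rw [Prod.fst_sum]
      simp only [Prod.fst_sum]
      exact h3 (X j)
    · rw [Prod.snd_sum]
      simp only [Prod.snd_sum]
      exact h3 (Y j)
  apply h
  rw [h1, h2, map_sum]
  refine Finset.sum_eq_zero fun u _ => ?_
  rw [map_sum]
  refine Finset.sum_eq_zero fun v _ => ?_
  have h5 : PhiJ c i j hj X Y z (Matrix.single u v (1 : K), 0) = 0 := by
    have := hcon true u v
    simpa [PhiJ] using this
  have h6 : PhiJ c i j hj X Y z (0, Matrix.single u v (1 : K)) = 0 := by
    have := hcon false u v
    simpa [PhiJ] using this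
  rw [map_add, map_smul, map_smul, h5, h6, smul_zero, smul_zero, add_zero]

end

theorem exists_units {r : ℕ} (c : Perm (Fin m) → K) (i : Fin m)
    (X Y : Fin m → Matrix (Fin r) (Fin r) K) (z : Matrix (Fin r) (Fin r) K)
    (h : Phi c i X Y z ≠ 0) :
    ∃ (P : Finset (Fin m)) (u v : Fin m → Fin r) (a' b' : Fin r),
      Phi c i (fun j => if j ∈ P then Matrix.single (u j) (v j) (1 : K) else 0)
        (fun j => if j ∈ P then 0 else Matrix.single (u j) (v j) (1 : K))
        (Matrix.single a' b' (1 : K)) ≠ 0 := by
  classical
  have hr : Nonempty (Fin r) := by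
    by_contra hr
    rw [not_nonempty_iff] at hr
    exact h (by ext a; exact isEmptyElim a)
  -- replace all letters
  have hC : ∀ s : Finset (Fin m), ∃ (P : Finset (Fin m)) (u v : Fin m → Fin r)
      (X' Y' : Fin m → Matrix (Fin r) (Fin r) K), Phi c i X' Y' z ≠ 0 ∧
      ∀ j ∈ s, j ≠ i → X' j = (if j ∈ P then Matrix.single (u j) (v j) (1 : K) else 0) ∧
        Y' j = (if j ∈ P then 0 else Matrix.single (u j) (v j) (1 : K)) := by
    intro s
    induction s using Finset.induction_on with
    | empty =>
      obtain ⟨x⟩ := hr
      exact ⟨∅, fun _ => x, fun _ => x, X, Y, h, by simp⟩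
    | insert j s hjs ih =>
      obtain ⟨P, u, v, X', Y', hne, hXY⟩ := ih
      by_cases hj : j = i
      · refine ⟨P, u, v, X', Y', hne, fun k hk hki => ?_⟩
        rcases Finset.mem_insert.1 hk with hk | hk
        · exact absurd (hk.trans hj) hki
        · exact hXY k hk hki
      · obtain ⟨b, u1, v1, hb⟩ := exists_units_step c i j hj X' Y' z hne
        refine ⟨if b then insert j P else P.erase j, Function.update u j u1,
          Function.update v j v1, _, _, hb, fun k hk hki => ?_⟩
        by_cases hkj : k = j
        · subst hkj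
          rw [Function.update_self, Function.update_self, Function.update_self,
            Function.update_self]
          cases b
          · simp
          · simp
        · rw [Function.update_of_ne hkj, Function.update_of_ne hkj, Function.update_of_ne hkj,
            Function.update_of_ne hkj]
          have hks : k ∈ s := (Finset.mem_insert.1 hk).resolve_left hkj
          have h1 := hXY k hks hki
          cases b
          · simpa [hkj] using h1
          · simpa [hkj] using h1
  obtain ⟨P, u, v, X', Y', hne, hXY⟩ := hC Finset.univ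
  -- expand `z`
  have hz : ∃ a' b', Phi c i X' Y' (Matrix.single a' b' (1 : K)) ≠ 0 := by
    by_contra hcon
    push Not at hcon
    apply hne
    have h3 : z = ∑ u, ∑ v, z u v • Matrix.single u v (1 : K) := by
      conv_lhs => rw [Matrix.matrix_eq_sum_single z]
      refine Finset.sum_congr rfl fun u _ => Finset.sum_congr rfl fun v _ => ?_
      rw [Matrix.smul_single, smul_eq_mul, mul_one]
    have h4 : Phi c i X' Y' z = PhiL c i X' Y' z := rfl
    rw [h4, h3, map_sum]
    refine Finset.sum_eq_zero fun a _ => ?_
    rw [map_sum]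
    refine Finset.sum_eq_zero fun b _ => ?_
    rw [map_smul]
    have h5 : PhiL c i X' Y' (Matrix.single a b (1 : K)) = 0 := hcon a b
    rw [h5, smul_zero]
  obtain ⟨a', b', hab⟩ := hz
  refine ⟨P, u, v, a', b', ?_⟩
  have h6 := Phi_congr c i (X := X') (Y := Y')
    (X' := fun j => if j ∈ P then Matrix.single (u j) (v j) (1 : K) else 0)
    (Y' := fun j => if j ∈ P then 0 else Matrix.single (u j) (v j) (1 : K))
    (Matrix.single a' b' (1 : K)) (fun j hj => (hXY j (Finset.mem_univ _) hj).1)
    (fun j hj => (hXY j (Finset.mem_univ _) hj).2)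
  rw [← h6]
  exact hab

end MLI
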