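import Pool.Agent.Work.MP_05d08f_al.Basic

set_option autoImplicit false

/-!
# MP_05d08f_al: polynomial functions and generic points
-/

namespace MLI

open Matrix Equiv

variable {K : Type*} [Field K] {J : Type*}

/-- Polynomial functions on `J → K`. -/
def IsPoly (P : (J → K) → K) : Prop := ∃ p : MvPolynomial J K, ∀ x, P x = MvPolynomial.eval x p

theorem IsPoly.const (t : K) : IsPoly (fun _ : J → K => t) := ⟨MvPolynomial.C t, by simp⟩

theorem IsPoly.coord (j : J) : IsPoly (fun x : J → K => x j) := ⟨MvPolynomial.X j, by simp⟩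

theorem IsPoly.add {P Q : (J → K) → K} (hP : IsPoly P) (hQ : IsPoly Q) :
    IsPoly (fun x => P x + Q x) := by
  obtain ⟨p, hp⟩ := hP
  obtain ⟨q, hq⟩ := hQ
  exact ⟨p + q, fun x => by simp only [map_add, hp, hq]⟩

theorem IsPoly.mul {P Q : (J → K) → K} (hP : IsPoly P) (hQ : IsPoly Q) :
    IsPoly (fun x => P x * Q x) := by
  obtain ⟨p, hp⟩ := hP
  obtain ⟨q, hq⟩ := hQ
  exact ⟨p * q, fun x => by simp only [map_mul, hp, hq]⟩

theorem IsPoly.neg {P : (J → K) → K} (hP : IsPoly P) : IsPoly (fun x => - P x) := by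
  obtain ⟨p, hp⟩ := hP
  exact ⟨-p, fun x => by simp only [map_neg, hp]⟩

theorem IsPoly.sum {ι : Type*} (s : Finset ι) {P : ι → (J → K) → K} (h : ∀ i ∈ s, IsPoly (P i)) :
    IsPoly (fun x => ∑ i ∈ s, P i x) := by
  classical
  induction s using Finset.induction_on with
  | empty => simpa using IsPoly.const (J := J) (0 : K)
  | insert a s ha ih =>
    have h1 := (h a (Finset.mem_insert_self a s)).add
      (ih fun i hi => h i (Finset.mem_insert_of_mem hi))
    simpa [Finset.sum_insert ha] using h1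

theorem IsPoly.prod {ι : Type*} (s : Finset ι) {P : ι → (J → K) → K}
    (h : ∀ i ∈ s, IsPoly (P i)) : IsPoly (fun x => ∏ i ∈ s, P i x) := by
  classical
  induction s using Finset.induction_on with
  | empty => simpa using IsPoly.const (J := J) (1 : K)
  | insert a s ha ih =>
    have h1 := (h a (Finset.mem_insert_self a s)).mul
      (ih fun i hi => h i (Finset.mem_insert_of_mem hi))
    simpa [Finset.prod_insert ha] using h1

/-- Substitution of polynomial functions into a polynomial function. -/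
theorem IsPoly.comp {J' : Type*} {P : (J → K) → K} (hP : IsPoly P) {f : (J' → K) → J → K}
    (hf : ∀ j, IsPoly (fun x => f x j)) : IsPoly (fun x => P (f x)) := by
  obtain ⟨p, hp⟩ := hP
  choose q hq using hf
  refine ⟨MvPolynomial.bind₁ q p, fun x => ?_⟩
  have h1 : MvPolynomial.eval x (MvPolynomial.bind₁ q p) =
      MvPolynomial.eval (fun j => MvPolynomial.eval x (q j)) p :=
    MvPolynomial.eval₂Hom_bind₁ (RingHom.id K) x q p
  rw [h1]
  change P (f x) = _
  rw [hp]
  congr 2
  funext j
  exact hq j x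

theorem IsPoly.ite (p : Prop) [Decidable p] {P Q : (J → K) → K} (hP : IsPoly P) (hQ : IsPoly Q) :
    IsPoly (fun x => if p then P x else Q x) := by
  by_cases h : p
  · simpa [h] using hP
  · simpa [h] using hQ

theorem IsPoly.list_prod {ι : Type*} (l : List ι) {P : ι → (J → K) → K}
    (h : ∀ i ∈ l, IsPoly (P i)) : IsPoly (fun x => (l.map fun i => P i x).prod) := by
  induction l with
  | nil => simpa using IsPoly.const (J := J) (1 : K)
  | cons a l ih =>
    simp only [List.map_cons, List.prod_cons]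
    exact (h a (by simp)).mul (ih fun i hi => h i (by simp [hi]))

/-- Determinants of matrices with polynomial entries are polynomial. -/
theorem IsPoly.det {ι : Type*} [Fintype ι] [DecidableEq ι] {M : (J → K) → Matrix ι ι K}
    (h : ∀ a b, IsPoly (fun x => M x a b)) : IsPoly (fun x => (M x).det) := by
  simp only [Matrix.det_apply]
  refine IsPoly.sum _ fun σ _ => ?_
  have h1 : IsPoly (fun x : J → K => ∏ i, M x (σ i) i) := IsPoly.prod _ fun i _ => h _ _
  rcases Int.units_eq_one_or (Equiv.Perm.sign σ) with hs | hs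
  · simpa [hs] using h1
  · simpa [hs] using h1.neg

/-- Products of matrices with polynomial entries. -/
theorem IsPoly.matrix_mul {α β γ : Type*} [Fintype β] {M : (J → K) → Matrix α β K}
    {N : (J → K) → Matrix β γ K} (hM : ∀ a b, IsPoly (fun x => M x a b))
    (hN : ∀ a b, IsPoly (fun x => N x a b)) (a : α) (b : γ) :
    IsPoly (fun x => (M x * N x) a b) := by
  simp only [Matrix.mul_apply]
  exact IsPoly.sum _ fun j _ => (hM a j).mul (hN j b)

theorem IsPoly.matrix_list_prod {ι α : Type*} [Fintype α] [DecidableEq α] (l : List ι)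
    {M : ι → (J → K) → Matrix α α K} (hM : ∀ i ∈ l, ∀ a b, IsPoly (fun x => M i x a b)) (a b : α) :
    IsPoly (fun x => ((l.map fun i => M i x).prod) a b) := by
  induction l generalizing a b with
  | nil =>
    simp only [List.map_nil, List.prod_nil, Matrix.one_apply]
    exact IsPoly.ite _ (IsPoly.const _) (IsPoly.const _)
  | cons i l ih =>
    simp only [List.map_cons, List.prod_cons]
    exact IsPoly.matrix_mul (fun a b => hM i (by simp) a b)
      (fun a b => ih (fun j hj => hM j (by simp [hj])) a b) a b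

/-- Finitely many polynomial functions which are not identically zero have a common nonzero. -/
theorem exists_common {ι : Type*} [Infinite K] (s : Finset ι) {P : ι → (J → K) → K}
    (hP : ∀ i ∈ s, IsPoly (P i)) (h : ∀ i ∈ s, ∃ x, P i x ≠ 0) : ∃ x, ∀ i ∈ s, P i x ≠ 0 := by
  classical
  choose! p hp using hP
  have hp0 : ∀ i ∈ s, p i ≠ 0 := by
    intro i hi h0
    obtain ⟨x, hx⟩ := h i hi
    rw [hp i hi, h0, map_zero] at hx
    exact hx rfl
  have hprod : (∏ i ∈ s, p i) ≠ 0 := Finset.prod_ne_zero_iff.2 hp0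
  obtain ⟨x, hx⟩ : ∃ x, MvPolynomial.eval x (∏ i ∈ s, p i) ≠ 0 := by
    by_contra hcon
    push Not at hcon
    exact hprod (MvPolynomial.funext fun x => by rw [hcon x, map_zero])
  refine ⟨x, fun i hi => ?_⟩
  rw [map_prod, Finset.prod_ne_zero_iff] at hx
  rw [hp i hi]
  exact hx i hi

/-- The matrix of the operator `Phi c i X Y`. -/
def Pmat {m : ℕ} {α β : Type*} [Fintype α] [DecidableEq α] [Fintype β] [DecidableEq β]
    (c : Perm (Fin m) → K) (i : Fin m)
    (X : Fin m → Matrix α α K) (Y : Fin m → Matrix β β K) : Matrix (α × β) (α × β) K :=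
  Matrix.of fun p q => ∑ σ : Perm (Fin m),
    c σ * (((wl σ i).map X).prod p.1 q.1 * ((wr σ i).map Y).prod q.2 p.2)

section Pm

variable {m : ℕ} {α β : Type*} [Fintype α] [DecidableEq α] [Fintype β] [DecidableEq β]

theorem Pmat_mulVec (c : Perm (Fin m) → K) (i : Fin m)
    (X : Fin m → Matrix α α K) (Y : Fin m → Matrix β β K) (z : Matrix α β K) (a : α) (b : β) :
    (Pmat c i X Y *ᵥ fun p => z p.1 p.2) (a, b) = Phi c i X Y z a b := by
  rw [Phi_apply, Matrix.mulVec, dotProduct]
  simp only [Pmat, Matrix.of_apply, Finset.sum_mul]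
  rw [Finset.sum_comm]
  refine Finset.sum_congr rfl fun σ _ => ?_
  rw [Fintype.sum_prod_type]
  refine Finset.sum_congr rfl fun a' _ => Finset.sum_congr rfl fun b' _ => ?_
  ring

theorem Phi_surj_of_det (c : Perm (Fin m) → K) (i : Fin m)
    (X : Fin m → Matrix α α K) (Y : Fin m → Matrix β β K) (h : (Pmat c i X Y).det ≠ 0)
    (w : Matrix α β K) : ∃ z, Phi c i X Y z = w := by
  have hu : IsUnit (Pmat c i X Y).det := isUnit_iff_ne_zero.2 h
  refine ⟨Matrix.of fun a b => ((Pmat c i X Y)⁻¹ *ᵥ fun p => w p.1 p.2) (a, b), ?_⟩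
  ext a b
  rw [← Pmat_mulVec]
  have h1 : (fun p : α × β => (Matrix.of fun a b =>
      ((Pmat c i X Y)⁻¹ *ᵥ fun p => w p.1 p.2) (a, b)) p.1 p.2) =
      (Pmat c i X Y)⁻¹ *ᵥ fun p => w p.1 p.2 := by
    funext p; rfl
  rw [h1, Matrix.mulVec_mulVec, Matrix.mul_nonsing_inv _ hu, Matrix.one_mulVec]

theorem det_of_Phi_surj (c : Perm (Fin m) → K) (i : Fin m)
    (X : Fin m → Matrix α α K) (Y : Fin m → Matrix β β K)
    (h : ∀ w : Matrix α β K, ∃ z, Phi c i X Y z = w) : (Pmat c i X Y).det ≠ 0 := by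
  have hs : Function.Surjective (Pmat c i X Y).mulVec := by
    intro w
    obtain ⟨z, hz⟩ := h (Matrix.of fun a b => w (a, b))
    refine ⟨fun p => z p.1 p.2, ?_⟩
    funext p
    obtain ⟨a, b⟩ := p
    rw [Pmat_mulVec, hz]
    rfl
  have h2 := Matrix.mulVec_surjective_iff_isUnit.1 hs
  exact ((Matrix.isUnit_iff_isUnit_det _).1 h2).ne_zero

theorem IsPoly.Pmat {J : Type*} (c : Perm (Fin m) → K) (i : Fin m)
    {X : (J → K) → Fin m → Matrix α α K} {Y : (J → K) → Fin m → Matrix β β K}
    (hX : ∀ j a b, IsPoly (fun x => X x j a b)) (hY : ∀ j a b, IsPoly (fun x => Y x j a b)) :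
    IsPoly (fun x => (MLI.Pmat c i (X x) (Y x)).det) := by
  refine IsPoly.det fun p q => ?_
  simp only [MLI.Pmat, Matrix.of_apply]
  refine IsPoly.sum _ fun σ _ => (IsPoly.const _).mul (IsPoly.mul ?_ ?_)
  · exact IsPoly.matrix_list_prod (wl σ i) (M := fun j x => X x j) (fun j _ a b => hX j a b) _ _
  · exact IsPoly.matrix_list_prod (wr σ i) (M := fun j x => Y x j) (fun j _ a b => hY j a b) _ _

end Pm

end MLI
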