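import Pool.Agent.Work.MP_05d08f_al.Gen

set_option autoImplicit false

/-!
# MP_05d08f_al: monomial matrices graded by a finite abelian group

`Gm h d` has the entry `d a` at `(a, a + h)`.  The product of the matrices `Gm (h j) (D j)` over a word `l`
is `Gm (sh h l) (wt h D l)`.  On `Gm c0 ζ` the operator `Phi` acts by the matrix `Lam`.
-/

namespace MLI

open Matrix Equiv

variable {K : Type*} [Field K] {m : ℕ} {G : Type*} [AddCommGroup G] [Fintype G] [DecidableEq G]

/-- Homogeneous matrix of degree `h`. -/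
def Gm (h : G) (d : G → K) : Matrix G G K := Matrix.of fun a b => if b = a + h then d a else 0

omit [Fintype G] in
theorem Gm_apply (h : G) (d : G → K) (a b : G) : Gm h d a b = if b = a + h then d a else 0 := rfl

/-- Weight of a word starting at `a`. -/
def wt (h : Fin m → G) (D : Fin m → G → K) : List (Fin m) → G → K
  | [], _ => 1
  | j :: l, a => D j a * wt h D l (a + h j)

/-- Degree of a word. -/
def sh (h : Fin m → G) (l : List (Fin m)) : G := (l.map h).sum

theorem one_eq_Gm : (1 : Matrix G G K) = Gm 0 (fun _ => 1) := by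
  ext a b
  rw [Gm_apply, Matrix.one_apply, add_zero]
  by_cases hab : a = b
  · simp [hab]
  · simp [hab, Ne.symm hab]

theorem Gm_mul (h h' : G) (d d' : G → K) :
    Gm h d * Gm h' d' = Gm (h + h') (fun a => d a * d' (a + h)) := by
  ext a b
  rw [Matrix.mul_apply, Finset.sum_eq_single (a + h)]
  · simp only [Gm_apply, if_true, add_assoc]
    by_cases hb : b = a + (h + h')
    · simp [hb]
    · simp [hb]
  · intro x _ hx
    rw [Gm_apply, if_neg hx, zero_mul]
  · intro hx; exact absurd (Finset.mem_univ _) hx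

theorem prod_Gm (h : Fin m → G) (D : Fin m → G → K) (l : List (Fin m)) :
    (l.map fun j => Gm (h j) (D j)).prod = Gm (sh h l) (wt h D l) := by
  induction l with
  | nil =>
    simp only [List.map_nil, List.prod_nil, sh, List.sum_nil]
    rw [one_eq_Gm]
    rfl
  | cons j l ih =>
    simp only [List.map_cons, List.prod_cons]
    rw [ih, Gm_mul]
    simp only [sh, List.map_cons, List.sum_cons]
    rfl

theorem wt_shift (h : Fin m → G) (D : Fin m → G → K) (k : G) (l : List (Fin m)) (a : G) :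
    wt h (fun j x => D j (x + k)) l a = wt h D l (a + k) := by
  induction l generalizing a with
  | nil => rfl
  | cons j l ih =>
    simp only [wt]
    rw [ih, show a + h j + k = a + k + h j by abel]

/-- The matrix of `Phi` from degree `c0` to degree `c0 + ∑_{j ≠ i} h j`. -/
def Lam (c : Perm (Fin m) → K) (i : Fin m) (h : Fin m → G) (c0 : G) (D D' : Fin m → G → K) :
    Matrix G G K :=
  Matrix.of fun a a' => ∑ σ : Perm (Fin m), if a' = a + sh h (wl σ i) then
    c σ * (wt h D (wl σ i) a * wt h D' (wr σ i) (a' + c0)) else 0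

theorem Lam_shift (c : Perm (Fin m) → K) (i : Fin m) (h : Fin m → G) (c0 k : G)
    (D D' : Fin m → G → K) :
    Lam c i h (c0 + k) D D' = Lam c i h c0 D (fun j x => D' j (x + k)) := by
  ext a a'
  simp only [Lam, Matrix.of_apply, wt_shift, add_assoc]

theorem sh_word (h : Fin m → G) (σ : Perm (Fin m)) (i : Fin m) :
    sh h (wl σ i) + h i + sh h (wr σ i) = ∑ j, h j := by
  have h1 : ((List.ofFn fun k => σ k).map h).sum = ∑ j, h j := by
    rw [List.map_ofFn, List.sum_ofFn]
    exact Equiv.sum_comp σ h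
  rw [← h1, ofFn_split σ i]
  simp [sh, add_assoc]

/-- `Phi` on homogeneous matrices. -/
theorem Phi_Gm (c : Perm (Fin m) → K) (i : Fin m) (h : Fin m → G) (c0 : G)
    (D D' : Fin m → G → K) (ζ : G → K) :
    Phi c i (fun j => Gm (h j) (D j)) (fun j => Gm (h j) (D' j)) (Gm c0 ζ) =
      Gm (c0 + ∑ j, h j - h i) (Lam c i h c0 D D' *ᵥ ζ) := by
  unfold Phi
  ext a b
  rw [Matrix.sum_apply, Gm_apply, Matrix.mulVec, dotProduct]
  have h1 : ∀ σ : Perm (Fin m), (c σ • (((wl σ i).map fun j => Gm (h j) (D j)).prod * Gm c0 ζ *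
      ((wr σ i).map fun j => Gm (h j) (D' j)).prod)) a b =
      if b = a + (c0 + ∑ j, h j - h i) then
        c σ * (wt h D (wl σ i) a * ζ (a + sh h (wl σ i)) *
          wt h D' (wr σ i) (a + sh h (wl σ i) + c0)) else 0 := by
    intro σ
    rw [prod_Gm, prod_Gm, Gm_mul, Gm_mul, Matrix.smul_apply, Gm_apply, smul_eq_mul]
    have h2 : sh h (wl σ i) + c0 + sh h (wr σ i) = c0 + ∑ j, h j - h i := by
      rw [← sh_word h σ i]; abel
    rw [h2]
    by_cases hb : b = a + (c0 + ∑ j, h j - h i)
    · simp only [hb, if_true]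
      rw [show a + (sh h (wl σ i) + c0) = a + sh h (wl σ i) + c0 by abel]
    · simp [hb]
  simp only [h1]
  by_cases hb : b = a + (c0 + ∑ j, h j - h i)
  · simp only [hb, if_true, Lam, Matrix.of_apply, Finset.sum_mul]
    rw [Finset.sum_comm]
    refine Finset.sum_congr rfl fun σ _ => ?_
    rw [Finset.sum_eq_single (a + sh h (wl σ i))]
    · rw [if_pos rfl]; ring
    · intro x _ hx
      rw [if_neg hx, zero_mul]
    · intro hx; exact absurd (Finset.mem_univ _) hx
  · simp [hb]

/-- Every matrix is a sum of homogeneous ones. -/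
theorem sum_Gm (z : Matrix G G K) : ∑ k : G, Gm k (fun a => z a (a + k)) = z := by
  ext a b
  rw [Matrix.sum_apply, Finset.sum_eq_single (b - a)]
  · rw [Gm_apply, if_pos (by abel)]
    congr 1
    abel
  · intro k _ hk
    rw [Gm_apply, if_neg]
    intro h
    exact hk (by rw [h]; abel)
  · intro h; exact absurd (Finset.mem_univ _) h

theorem IsPoly.wt {J : Type*} (h : Fin m → G) {D : (J → K) → Fin m → G → K}
    (hD : ∀ j a, IsPoly (fun x => D x j a)) (l : List (Fin m)) (a : G) :
    IsPoly (fun x => MLI.wt h (D x) l a) := by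
  induction l generalizing a with
  | nil => exact IsPoly.const _
  | cons j l ih => exact (hD j a).mul (ih _)

theorem IsPoly.Lam_det {J : Type*} (c : Perm (Fin m) → K) (i : Fin m) (h : Fin m → G) (c0 : G)
    {D D' : (J → K) → Fin m → G → K} (hD : ∀ j a, IsPoly (fun x => D x j a))
    (hD' : ∀ j a, IsPoly (fun x => D' x j a)) :
    IsPoly (fun x => (Lam c i h c0 (D x) (D' x)).det) := by
  refine IsPoly.det fun a a' => ?_
  simp only [Lam, Matrix.of_apply]
  exact IsPoly.sum _ fun σ _ => IsPoly.ite _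
    ((IsPoly.const _).mul ((IsPoly.wt h hD _ _).mul (IsPoly.wt h hD' _ _))) (IsPoly.const _)

/-- Solvability in a fixed degree. -/
theorem Phi_Gm_surj (c : Perm (Fin m) → K) (i : Fin m) (h : Fin m → G) (c0 : G)
    (D D' : Fin m → G → K) (hdet : (Lam c i h c0 D D').det ≠ 0) (w : G → K) :
    ∃ ζ : G → K, Phi c i (fun j => Gm (h j) (D j)) (fun j => Gm (h j) (D' j)) (Gm c0 ζ) =
      Gm (c0 + ∑ j, h j - h i) w := by
  refine ⟨(Lam c i h c0 D D')⁻¹ *ᵥ w, ?_⟩
  rw [Phi_Gm, Matrix.mulVec_mulVec, Matrix.mul_nonsing_inv _ (isUnit_iff_ne_zero.2 hdet),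
    Matrix.one_mulVec]

/-- Solvability in all degrees. -/
theorem Phi_surj_of_Lam (c : Perm (Fin m) → K) (i : Fin m) (h : Fin m → G)
    (D D' : Fin m → G → K) (hdet : ∀ c0, (Lam c i h c0 D D').det ≠ 0) (w : Matrix G G K) :
    ∃ z, Phi c i (fun j => Gm (h j) (D j)) (fun j => Gm (h j) (D' j)) z = w := by
  choose ζ hζ using fun k : G => Phi_Gm_surj c i h (k + h i - ∑ j, h j) D D' (hdet _)
    (fun a => w a (a + k))
  refine ⟨∑ k : G, Gm (k + h i - ∑ j, h j) (ζ k), ?_⟩
  have h1 : Phi c i (fun j => Gm (h j) (D j)) (fun j => Gm (h j) (D' j))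
      (∑ k : G, Gm (k + h i - ∑ j, h j) (ζ k)) =
      ∑ k : G, Phi c i (fun j => Gm (h j) (D j)) (fun j => Gm (h j) (D' j))
        (Gm (k + h i - ∑ j, h j) (ζ k)) :=
    map_sum (PhiL c i (fun j => Gm (h j) (D j)) (fun j => Gm (h j) (D' j))) _ _
  rw [h1]
  conv_rhs => rw [← sum_Gm w]
  refine Finset.sum_congr rfl fun k _ => ?_
  rw [hζ]
  congr 1
  abel

end MLI
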