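import Pool.Agent.Work.MP_05d08f_al.Mono
import Pool.Agent.Work.MP_05d08f_al.Expand

set_option autoImplicit false

/-!
# MP_05d08f_al: a point where `Phi` is bijective on large rectangular matrices
-/

namespace MLI

open Matrix Equiv

variable {K : Type*} [Field K] {m : ℕ}

theorem prod_sel {R : Type*} [MonoidWithZero R] (P : Finset (Fin m)) (X : Fin m → R)
    (l : List (Fin m)) :
    (l.map fun j => if j ∈ P then X j else 0).prod =
      if ∀ j ∈ l, j ∈ P then (l.map X).prod else 0 := by
  induction l with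
  | nil => simp
  | cons j l ih =>
    rw [List.map_cons, List.prod_cons, ih, List.map_cons, List.prod_cons]
    by_cases hj : j ∈ P
    · by_cases hl : ∀ j ∈ l, j ∈ P
      · rw [if_pos hj, if_pos hl, if_pos]
        intro k hk
        rcases List.mem_cons.1 hk with rfl | hk
        · exact hj
        · exact hl k hk
      · rw [if_neg hl, mul_zero, if_neg]
        intro h
        exact hl fun k hk => h k (List.mem_cons_of_mem _ hk)
    · rw [if_neg hj, zero_mul, if_neg]
      intro h
      exact hj (h j List.mem_cons_self)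

theorem prod_sel' {R : Type*} [MonoidWithZero R] (P : Finset (Fin m)) (X : Fin m → R)
    (l : List (Fin m)) :
    (l.map fun j => if j ∈ P then 0 else X j).prod =
      if ∀ j ∈ l, j ∉ P then (l.map X).prod else 0 := by
  have h := prod_sel Pᶜ X l
  have h1 : (fun j => if j ∈ P then 0 else X j) = fun j => if j ∈ Pᶜ then X j else 0 := by
    funext j
    by_cases hj : j ∈ P
    · simp [hj]
    · simp [hj]
  rw [h1, h]
  simp only [Finset.mem_compl]

/-- Products of matrix units, transported to the group `G`. -/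
theorem prod_units {G : Type*} [AddCommGroup G] [Fintype G] [DecidableEq G] {r : ℕ}
    (u v : Fin m → Fin r) (φ : Fin r → G) (hφ : Function.Injective φ) (δ : G)
    (l : List (Fin m)) (x y : Fin r) :
    (l.map fun j => Matrix.single (u j) (v j) (1 : K)).prod x y =
      if φ y = φ x + sh (fun j => φ (v j) - φ (u j)) l then
        wt (fun j => φ (v j) - φ (u j)) (fun j => Pi.single (φ (u j) + δ) (1 : K)) l (φ x + δ)
      else 0 := by
  induction l generalizing x with
  | nil =>
    simp only [List.map_nil, List.prod_nil, sh, List.sum_nil, add_zero, wt]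
    rw [Matrix.one_apply]
    by_cases h : x = y
    · rw [if_pos h, if_pos (by rw [h])]
    · rw [if_neg h, if_neg fun h' => h (hφ h'.symm)]
  | cons j l ih =>
    rw [List.map_cons, List.prod_cons]
    have hsh : sh (fun j => φ (v j) - φ (u j)) (j :: l) =
        (φ (v j) - φ (u j)) + sh (fun j => φ (v j) - φ (u j)) l := by simp [sh]
    rw [hsh]
    by_cases hx : x = u j
    · rw [hx, Matrix.single_mul_apply_same, one_mul, ih]
      have h1 : φ (u j) + (φ (v j) - φ (u j) + sh (fun j => φ (v j) - φ (u j)) l) =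
          φ (v j) + sh (fun j => φ (v j) - φ (u j)) l := by abel
      have h2 : φ (u j) + δ + (φ (v j) - φ (u j)) = φ (v j) + δ := by abel
      rw [h1]
      simp only [wt, Pi.single_eq_same, one_mul, h2]
    · rw [Matrix.single_mul_apply_of_ne _ _ _ _ _ hx]
      simp only [wt]
      rw [Pi.single_eq_of_ne fun h => hx (hφ (add_right_cancel h)), zero_mul, ite_self]

/-- The words with all left letters in `P` and all right letters outside `P`. -/
def Good (P : Finset (Fin m)) (i : Fin m) (σ : Perm (Fin m)) : Prop :=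
  (∀ j ∈ wl σ i, j ∈ P) ∧ ∀ j ∈ wr σ i, j ∉ P

open Classical in
theorem Good.sh_wl {G : Type*} [AddCommGroup G] {P : Finset (Fin m)} {i : Fin m}
    {σ : Perm (Fin m)} (h : Good P i σ) (g : Fin m → G) :
    sh g (wl σ i) = ∑ j ∈ P.erase i, g j := by
  have h1 : (wl σ i).toFinset = P.erase i := by
    ext j
    rw [List.mem_toFinset, Finset.mem_erase]
    constructor
    · intro hj
      exact ⟨fun h' => not_mem_wl σ i (h' ▸ hj), h.1 j hj⟩
    · rintro ⟨h1, h2⟩
      rcases mem_wl_or_wr σ i j h1 with h3 | h3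
      · exact h3
      · exact absurd h2 (h.2 j h3)
  rw [← h1]
  exact (List.sum_toFinset g (nodup_wl σ i)).symm

open Classical in
theorem Good.sh_wr {G : Type*} [AddCommGroup G] {P : Finset (Fin m)} {i : Fin m}
    {σ : Perm (Fin m)} (h : Good P i σ) (g : Fin m → G) :
    sh g (wr σ i) = ∑ j ∈ (Pᶜ).erase i, g j := by
  have h1 : (wr σ i).toFinset = (Pᶜ).erase i := by
    ext j
    rw [List.mem_toFinset, Finset.mem_erase, Finset.mem_compl]
    constructor
    · intro hj
      exact ⟨fun h' => not_mem_wr σ i (h' ▸ hj), h.2 j hj⟩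
    · rintro ⟨h1, h2⟩
      rcases mem_wl_or_wr σ i j h1 with h3 | h3
      · exact absurd (h.1 j h3) h2
      · exact h3
  rw [← h1]
  exact (List.sum_toFinset g (nodup_wr σ i)).symm

section Two

variable {G H : Type*} [AddCommGroup G] [Fintype G] [DecidableEq G]
  [AddCommGroup H] [Fintype H] [DecidableEq H]

open Classical in
/-- The coefficients of the monomial operator. -/
noncomputable def gam (c : Perm (Fin m) → K) (i : Fin m) (P : Finset (Fin m)) (g : Fin m → G)
    (h : Fin m → H) (D : Fin m → G → K) (D' : Fin m → H → K) (a : G) (b : H) : K :=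
  ∑ σ : Perm (Fin m), if Good P i σ then c σ * (wt g D (wl σ i) a * wt h D' (wr σ i) b) else 0

open Classical in
theorem Phi_sel (c : Perm (Fin m) → K) (i : Fin m) (P : Finset (Fin m)) (g : Fin m → G)
    (h : Fin m → H) (D : Fin m → G → K) (D' : Fin m → H → K) (z : Matrix G H K) (a : G) (b : H) :
    Phi c i (fun j => if j ∈ P then Gm (g j) (D j) else 0)
      (fun j => if j ∈ P then 0 else Gm (h j) (D' j)) z a b =
      gam c i P g h D D' a (b - ∑ j ∈ (Pᶜ).erase i, h j) *
        z (a + ∑ j ∈ P.erase i, g j) (b - ∑ j ∈ (Pᶜ).erase i, h j) := by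
  unfold Phi gam
  rw [Matrix.sum_apply, Finset.sum_mul]
  refine Finset.sum_congr rfl fun σ _ => ?_
  rw [prod_sel, prod_sel']
  by_cases hl : ∀ j ∈ wl σ i, j ∈ P
  · by_cases hr : ∀ j ∈ wr σ i, j ∉ P
    · have hg : Good P i σ := ⟨hl, hr⟩
      rw [if_pos hl, if_pos hr, if_pos hg, prod_Gm, prod_Gm, hg.sh_wl, hg.sh_wr,
        Matrix.smul_apply, smul_eq_mul, Matrix.mul_apply,
        Finset.sum_eq_single (b - ∑ j ∈ (Pᶜ).erase i, h j)]
      · rw [Gm_apply, if_pos (by abel), Matrix.mul_apply,
          Finset.sum_eq_single (a + ∑ j ∈ P.erase i, g j)]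
        · rw [Gm_apply, if_pos rfl]; ring
        · intro x _ hx
          rw [Gm_apply, if_neg hx, zero_mul]
        · intro h1; exact absurd (Finset.mem_univ _) h1
      · intro y _ hy
        rw [Gm_apply, if_neg, mul_zero]
        intro h1
        exact hy (by rw [h1]; abel)
      · intro h1; exact absurd (Finset.mem_univ _) h1
    · rw [if_neg hr, Matrix.mul_zero, smul_zero, if_neg fun hg => hr hg.2, zero_mul]
      rfl
  · rw [if_neg hl, Matrix.zero_mul, Matrix.zero_mul, smul_zero, if_neg fun hg => hl hg.1, zero_mul]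
    rfl

open Classical in
theorem IsPoly.gam {J : Type*} (c : Perm (Fin m) → K) (i : Fin m) (P : Finset (Fin m))
    (g : Fin m → G) (h : Fin m → H) {D : (J → K) → Fin m → G → K} {D' : (J → K) → Fin m → H → K}
    (hD : ∀ j a, IsPoly (fun x => D x j a)) (hD' : ∀ j a, IsPoly (fun x => D' x j a))
    (a : G) (b : H) : IsPoly (fun x => MLI.gam c i P g h (D x) (D' x) a b) := by
  unfold MLI.gam
  exact IsPoly.sum _ fun σ _ => IsPoly.ite _
    ((IsPoly.const _).mul ((IsPoly.wt g hD _ _).mul (IsPoly.wt h hD' _ _))) (IsPoly.const _)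

/-- For groups of large order there is a point where `Phi` is bijective. -/
theorem surj_group [Infinite K] {r : ℕ} (c : Perm (Fin m) → K) (i : Fin m)
    (P : Finset (Fin m)) (u v : Fin m → Fin r) (a' b' : Fin r)
    (hne : Phi c i (fun j => if j ∈ P then Matrix.single (u j) (v j) (1 : K) else 0)
        (fun j => if j ∈ P then 0 else Matrix.single (u j) (v j) (1 : K))
        (Matrix.single a' b' (1 : K)) ≠ 0)
    (φ : Fin r → G) (hφ : Function.Injective φ) (ψ : Fin r → H) (hψ : Function.Injective ψ) :
    ∃ (X : Fin m → Matrix G G K) (Y : Fin m → Matrix H H K), (Pmat c i X Y).det ≠ 0 := by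
  classical
  let g : Fin m → G := fun j => φ (v j) - φ (u j)
  let h : Fin m → H := fun j => ψ (v j) - ψ (u j)
  let Hg : G := ∑ j ∈ P.erase i, g j
  let Hh : H := ∑ j ∈ (Pᶜ).erase i, h j
  -- a nonzero entry
  obtain ⟨a0, b0, hab⟩ : ∃ a0 b0, Phi c i
      (fun j => if j ∈ P then Matrix.single (u j) (v j) (1 : K) else 0)
      (fun j => if j ∈ P then 0 else Matrix.single (u j) (v j) (1 : K))
      (Matrix.single a' b' (1 : K)) a0 b0 ≠ 0 := by
    by_contra hcon
    push Not at hcon
    exact hne (by ext a b; rw [hcon a b]; rfl)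
  -- the entry in terms of words
  have hentry : ∀ (δ : G) (δ' : H), Phi c i
      (fun j => if j ∈ P then Matrix.single (u j) (v j) (1 : K) else 0)
      (fun j => if j ∈ P then 0 else Matrix.single (u j) (v j) (1 : K))
      (Matrix.single a' b' (1 : K)) a0 b0 =
      if φ a' = φ a0 + Hg ∧ ψ b0 = ψ b' + Hh then
        gam c i P g h (fun j => Pi.single (φ (u j) + δ) (1 : K))
          (fun j => Pi.single (ψ (u j) + δ') (1 : K)) (φ a0 + δ) (ψ b' + δ') else 0 := by
    intro δ δ'
    unfold Phi gam
    rw [Matrix.sum_apply]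
    have hterm : ∀ σ : Perm (Fin m), (c σ • (((wl σ i).map fun j =>
        if j ∈ P then Matrix.single (u j) (v j) (1 : K) else 0).prod *
        Matrix.single a' b' (1 : K) * ((wr σ i).map fun j =>
        if j ∈ P then 0 else Matrix.single (u j) (v j) (1 : K)).prod)) a0 b0 =
        if φ a' = φ a0 + Hg ∧ ψ b0 = ψ b' + Hh then
          (if Good P i σ then c σ * (wt g (fun j => Pi.single (φ (u j) + δ) (1 : K)) (wl σ i)
            (φ a0 + δ) * wt h (fun j => Pi.single (ψ (u j) + δ') (1 : K)) (wr σ i)
            (ψ b' + δ')) else 0) else 0 := by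
      intro σ
      rw [prod_sel, prod_sel']
      by_cases hl : ∀ j ∈ wl σ i, j ∈ P
      · by_cases hr : ∀ j ∈ wr σ i, j ∉ P
        · have hg : Good P i σ := ⟨hl, hr⟩
          rw [if_pos hl, if_pos hr, if_pos hg, Matrix.smul_apply, smul_eq_mul, Matrix.mul_apply,
            Finset.sum_eq_single b']
          · rw [Matrix.mul_single_apply_same, mul_one,
              prod_units u v φ hφ δ, prod_units u v ψ hψ δ']
            have e1 : sh (fun j => φ (v j) - φ (u j)) (wl σ i) = Hg := hg.sh_wl g
            have e2 : sh (fun j => ψ (v j) - ψ (u j)) (wr σ i) = Hh := hg.sh_wr h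
            rw [e1, e2]
            by_cases h1 : φ a' = φ a0 + Hg
            · by_cases h2 : ψ b0 = ψ b' + Hh
              · rw [if_pos h1, if_pos h2, if_pos ⟨h1, h2⟩]
              · simp only [h2, if_false, and_false, mul_zero]
            · simp only [h1, if_false, false_and, zero_mul, mul_zero]
          · intro y _ hy
            rw [Matrix.mul_single_apply_of_ne _ _ _ _ _ hy, zero_mul]
          · intro h1; exact absurd (Finset.mem_univ _) h1
        · have hng : ¬ Good P i σ := fun hg => hr hg.2
          rw [if_neg hr, Matrix.mul_zero, smul_zero]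
          simp only [if_neg hng, ite_self]
          rfl
      · have hng : ¬ Good P i σ := fun hg => hl hg.1
        rw [if_neg hl, Matrix.zero_mul, Matrix.zero_mul, smul_zero]
        simp only [if_neg hng, ite_self]
        rfl
    simp only [hterm]
    by_cases h1 : φ a' = φ a0 + Hg ∧ ψ b0 = ψ b' + Hh
    · simp only [if_pos h1]
    · simp only [if_neg h1, Finset.sum_const_zero]
  have hcond : φ a' = φ a0 + Hg ∧ ψ b0 = ψ b' + Hh := by
    by_contra hcon
    rw [hentry 0 0, if_neg hcon] at hab
    exact hab rfl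
  -- generic diagonal parts
  obtain ⟨x, hx⟩ := exists_common (J := (Fin m × G) ⊕ (Fin m × H)) (K := K) (ι := G × H)
    Finset.univ
    (P := fun p x => gam c i P g h (fun j a => x (Sum.inl (j, a)))
      (fun j b => x (Sum.inr (j, b))) p.1 p.2) (by
      intro p _
      exact IsPoly.gam c i P g h (fun j a => IsPoly.coord _) (fun j a => IsPoly.coord _) _ _) (by
      rintro ⟨a, b⟩ _
      refine ⟨Sum.elim (fun q => (Pi.single (φ (u q.1) + (a - φ a0)) (1 : K) : G → K) q.2)
        (fun q => (Pi.single (ψ (u q.1) + (b - ψ b')) (1 : K) : H → K) q.2), ?_⟩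
      have h1 := hentry (a - φ a0) (b - ψ b')
      rw [if_pos hcond, show φ a0 + (a - φ a0) = a by abel, show ψ b' + (b - ψ b') = b by abel] at h1
      simp only [Sum.elim_inl, Sum.elim_inr]
      rw [← h1]
      exact hab)
  refine ⟨fun j => if j ∈ P then Gm (g j) (fun a => x (Sum.inl (j, a))) else 0,
    fun j => if j ∈ P then 0 else Gm (h j) (fun b => x (Sum.inr (j, b))), ?_⟩
  refine det_of_Phi_surj c i _ _ fun w => ?_
  refine ⟨Matrix.of fun p q => w (p - Hg) (q + Hh) / gam c i P g h (fun j a => x (Sum.inl (j, a)))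
      (fun j b => x (Sum.inr (j, b))) (p - Hg) q, ?_⟩
  ext a b
  rw [Phi_sel]
  have h1 := hx (a, b - Hh) (Finset.mem_univ _)
  change gam c i P g h (fun j a => x (Sum.inl (j, a))) (fun j b => x (Sum.inr (j, b))) a
    (b - Hh) * (w (a + Hg - Hg) (b - Hh + Hh) / gam c i P g h (fun j a => x (Sum.inl (j, a)))
      (fun j b => x (Sum.inr (j, b))) (a + Hg - Hg) (b - Hh)) = w a b
  rw [add_sub_cancel_right, sub_add_cancel, mul_div_cancel₀ _ h1]

end Two

/-- There is a point where `Phi` is bijective on all rectangular matrices of size at least `r`. -/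
theorem surj_point [Infinite K] {r : ℕ} (c : Perm (Fin m) → K) (i : Fin m)
    (X0 Y0 : Fin m → Matrix (Fin r) (Fin r) K) (z0 : Matrix (Fin r) (Fin r) K)
    (hne : Phi c i X0 Y0 z0 ≠ 0) {α β : Type*} [Fintype α] [DecidableEq α] [Fintype β]
    [DecidableEq β] (hα : r ≤ Fintype.card α) (hβ : r ≤ Fintype.card β) :
    ∃ (X : Fin m → Matrix α α K) (Y : Fin m → Matrix β β K), (Pmat c i X Y).det ≠ 0 := by
  obtain ⟨P, u, v, a', b', h⟩ := exists_units c i X0 Y0 z0 hne
  have hr : 0 < r := Fin.pos a'
  have : NeZero (Fintype.card α) := ⟨by omega⟩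
  have : NeZero (Fintype.card β) := ⟨by omega⟩
  obtain ⟨φ⟩ := Function.Embedding.nonempty_of_card_le (α := Fin r) (β := ZMod (Fintype.card α))
    (by rw [Fintype.card_fin, ZMod.card]; exact hα)
  obtain ⟨ψ⟩ := Function.Embedding.nonempty_of_card_le (α := Fin r) (β := ZMod (Fintype.card β))
    (by rw [Fintype.card_fin, ZMod.card]; exact hβ)
  obtain ⟨X, Y, hdet⟩ := surj_group c i P u v a' b' h φ φ.injective ψ ψ.injective
  let e : α ≃ ZMod (Fintype.card α) := Fintype.equivOfCardEq (by rw [ZMod.card])
  let f : β ≃ ZMod (Fintype.card β) := Fintype.equivOfCardEq (by rw [ZMod.card])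
  refine ⟨fun j => (X j).submatrix e e, fun j => (Y j).submatrix f f, ?_⟩
  refine det_of_Phi_surj c i _ _ fun w => ?_
  obtain ⟨z, hz⟩ := Phi_surj_of_det c i X Y hdet (w.submatrix e.symm f.symm)
  refine ⟨z.submatrix e f, ?_⟩
  rw [Phi_submatrix, hz]
  ext a b
  simp

end MLI
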