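import Pool.Agent.Work.MP_05d08f_al.Mono

set_option autoImplicit false

/-!
# MP_05d08f_al: the core of the `2 × 2` case
-/

namespace MLI

open Matrix Equiv

variable {K : Type*} [Field K] {m : ℕ}

/-- `ev` as a multilinear map. -/
noncomputable def evM {ι : Type*} [Fintype ι] [DecidableEq ι] (c : Perm (Fin m) → K) :
    MultilinearMap K (fun _ : Fin m => Matrix ι ι K) (Matrix ι ι K) :=
  ∑ σ : Perm (Fin m), c σ • (MultilinearMap.mkPiAlgebraFin K m (Matrix ι ι K)).domDomCongr σ

theorem evM_apply {ι : Type*} [Fintype ι] [DecidableEq ι] (c : Perm (Fin m) → K)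
    (a : Fin m → Matrix ι ι K) : evM c a = ev c a := by
  unfold evM ev
  rw [_root_.sum_apply]
  refine Finset.sum_congr rfl fun σ _ => ?_
  rw [_root_.smul_apply]
  rfl

/-- The linear map `d ↦ Gm h d`. -/
def GmL {G : Type*} [AddCommGroup G] [Fintype G] [DecidableEq G] (h : G) :
    (G → K) →ₗ[K] Matrix G G K where
  toFun := Gm h
  map_add' := by
    intro d d'
    ext a b
    simp only [Gm_apply, Matrix.add_apply, Pi.add_apply]
    by_cases hb : b = a + h
    · simp [hb]
    · simp [hb]
  map_smul' := by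
    intro t d
    ext a b
    simp only [Gm_apply, Matrix.smul_apply, Pi.smul_apply, smul_eq_mul, RingHom.id_apply]
    by_cases hb : b = a + h
    · simp [hb]
    · simp [hb]

theorem ev_Gm {G : Type*} [AddCommGroup G] [Fintype G] [DecidableEq G] (c : Perm (Fin m) → K)
    (g : Fin m → G) (D : Fin m → G → K) :
    ev c (fun j => Gm (g j) (D j)) =
      Gm (∑ j, g j) (fun a => ∑ σ : Perm (Fin m), c σ * wt g D (List.ofFn fun k => σ k) a) := by
  unfold ev
  ext a b
  rw [Matrix.sum_apply, Gm_apply]
  have h1 : ∀ σ : Perm (Fin m), (c σ • (List.ofFn fun k => Gm (g (σ k)) (D (σ k))).prod) a b =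
      if b = a + ∑ j, g j then c σ * wt g D (List.ofFn fun k => σ k) a else 0 := by
    intro σ
    have h2 : (List.ofFn fun k => Gm (g (σ k)) (D (σ k))) =
        (List.ofFn fun k => σ k).map fun j => Gm (g j) (D j) := by
      rw [List.map_ofFn]; rfl
    have h3 : sh g (List.ofFn fun k => σ k) = ∑ j, g j := by
      unfold sh
      rw [List.map_ofFn, List.sum_ofFn]
      exact Equiv.sum_comp σ g
    rw [h2, prod_Gm, Matrix.smul_apply, Gm_apply, smul_eq_mul, h3]
    by_cases hb : b = a + ∑ j, g j
    · simp [hb]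
    · simp [hb]
  simp only [h1]
  by_cases hb : b = a + ∑ j, g j
  · simp [hb]
  · simp [hb]

/-- Coefficient of the value of homogeneous matrices. -/
noncomputable def co (c : Perm (Fin m) → K) (g : Fin m → ZMod 2) (a : ZMod 2)
    (D : Fin m → ZMod 2 → K) : K :=
  ∑ σ : Perm (Fin m), c σ * wt g D (List.ofFn fun k => σ k) a

theorem co_eq (c : Perm (Fin m) → K) (g : Fin m → ZMod 2) (a : ZMod 2)
    (D : Fin m → ZMod 2 → K) :
    co c g a D = ((evM c).compLinearMap fun j => GmL (g j)) D a (a + ∑ j, g j) := by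
  rw [MultilinearMap.compLinearMap_apply, evM_apply]
  have : ev c (fun j => GmL (g j) (D j)) = ev c (fun j => Gm (g j) (D j)) := rfl
  rw [this, ev_Gm, Gm_apply, if_pos rfl]
  rfl

theorem co_expand (c : Perm (Fin m) → K) (g : Fin m → ZMod 2) (a : ZMod 2)
    (e e' : Fin m → ZMod 2 → K) (s : Fin m → K) :
    co c g a (fun j => e j + s j • e' j) =
      ∑ T : Finset (Fin m), (∏ j ∈ T, s j) * co c g a (fun j => if j ∈ T then e' j else e j) := by
  rw [co_eq]
  have h1 : (fun j => e j + s j • e' j) = (fun j => s j • e' j) + e := by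
    funext j
    rw [Pi.add_apply, add_comm]
  rw [h1, MultilinearMap.map_add_univ, Matrix.sum_apply]
  refine Finset.sum_congr rfl fun T _ => ?_
  have h2 : T.piecewise (fun j => s j • e' j) e =
      T.piecewise (fun j => s j • (fun j => if j ∈ T then e' j else e j) j)
        (fun j => if j ∈ T then e' j else e j) := by
    funext j
    by_cases hj : j ∈ T
    · simp [Finset.piecewise, hj]
    · simp [Finset.piecewise, hj]
  rw [h2, MultilinearMap.map_piecewise_smul, Matrix.smul_apply, smul_eq_mul, co_eq]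

theorem co_shift (c : Perm (Fin m) → K) (g : Fin m → ZMod 2) (a : ZMod 2)
    (D : Fin m → ZMod 2 → K) :
    co c g a (fun j x => D j (x + 1)) = co c g (a + 1) D := by
  unfold co
  simp only [wt_shift]

/-- Unit functions. -/
def eu (u : Fin m → ZMod 2) : Fin m → ZMod 2 → K := fun j => Pi.single (u j) 1

/-- The balance of a word in matrix units. -/
theorem wt_unit (g u : Fin m → ZMod 2) (l : List (Fin m)) (a : ZMod 2)
    (h : wt g (eu (K := K) u) l a ≠ 0) :
    (l.map fun j => ((if u j = 0 then 1 else 0) - (if u j + g j = 0 then 1 else 0) : ℤ)).sum =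
      (if a = 0 then 1 else 0) - (if a + sh g l = 0 then 1 else 0) := by
  induction l generalizing a with
  | nil => simp [sh]
  | cons j l ih =>
    simp only [wt] at h
    have h1 : eu (K := K) u j a ≠ 0 := left_ne_zero_of_mul h
    have h2 := right_ne_zero_of_mul h
    have h3 : a = u j := by
      by_contra hne
      exact h1 (by simp [eu, hne])
    rw [List.map_cons, List.sum_cons, ih _ h2]
    have h4 : sh g (j :: l) = g j + sh g l := by simp [sh]
    rw [h4, h3, add_assoc]
    ring

theorem co_unit_unique (c : Perm (Fin m) → K) (g u : Fin m → ZMod 2) (hg : ∑ j, g j = 1)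
    (a : ZMod 2) (h : co c g a (eu u) ≠ 0) : co c g (a + 1) (eu u) = 0 := by
  by_contra h'
  obtain ⟨σ, _, hσ⟩ := Finset.exists_ne_zero_of_sum_ne_zero h
  obtain ⟨τ, _, hτ⟩ := Finset.exists_ne_zero_of_sum_ne_zero h'
  have h1 := wt_unit g u _ a (right_ne_zero_of_mul hσ)
  have h2 := wt_unit g u _ (a + 1) (right_ne_zero_of_mul hτ)
  have hs : ∀ σ : Perm (Fin m), sh g (List.ofFn fun k => σ k) = 1 := by
    intro σ
    unfold sh
    rw [List.map_ofFn, List.sum_ofFn, ← hg]
    exact Equiv.sum_comp σ g
  have hb : ∀ σ : Perm (Fin m), ((List.ofFn fun k => σ k).map fun j =>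
      ((if u j = 0 then 1 else 0) - (if u j + g j = 0 then 1 else 0) : ℤ)).sum =
      ∑ j, ((if u j = 0 then 1 else 0) - (if u j + g j = 0 then 1 else 0) : ℤ) := by
    intro σ
    rw [List.map_ofFn, List.sum_ofFn]
    exact Equiv.sum_comp σ
      (fun j => ((if u j = 0 then 1 else 0) - (if u j + g j = 0 then 1 else 0) : ℤ))
  rw [hs, hb] at h1 h2
  rw [h1] at h2
  clear h h' hσ hτ h1 hs hb
  revert h2
  revert a
  decide

/-- `Lam` in the degree of the letter `i` computes the coefficients. -/
theorem Lam_mulVec (c : Perm (Fin m) → K) (i : Fin m) (g : Fin m → ZMod 2)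
    (D : Fin m → ZMod 2 → K) (ζ : ZMod 2 → K) (a : ZMod 2) :
    (Lam c i g (g i) D D *ᵥ ζ) a = co c g a (Function.update D i ζ) := by
  have h1 := Phi_Gm c i g (g i) D D ζ
  have h2 : ev c (fun j => Gm (g j) (Function.update D i ζ j)) =
      Phi c i (fun j => Gm (g j) (D j)) (fun j => Gm (g j) (D j)) (Gm (g i) ζ) := by
    rw [ev_eq_Phi c i]
    have h3 : Function.update D i ζ i = ζ := Function.update_self _ _ _
    rw [h3]
    exact Phi_congr c i _ (fun j hj => by rw [Function.update_of_ne hj])
      (fun j hj => by rw [Function.update_of_ne hj])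
  rw [← h2, ev_Gm, show g i + ∑ j, g j - g i = ∑ j, g j by abel] at h1
  have h4 := congrFun (congrFun h1 a) (a + ∑ j, g j)
  rw [Gm_apply, Gm_apply, if_pos rfl, if_pos rfl] at h4
  exact h4.symm

theorem exists_unit_co (c : Perm (Fin m) → K) (a : Fin m → Matrix (ZMod 2) (ZMod 2) K)
    (h : ∀ t : K, ev c a ≠ Matrix.scalar (ZMod 2) t) :
    ∃ (g u : Fin m → ZMod 2) (x : ZMod 2), ∑ j, g j = 1 ∧ co c g x (eu u) ≠ 0 := by
  by_contra hcon
  push Not at hcon
  -- all values are diagonal
  have hdiag : ∀ (b : Fin m → Matrix (ZMod 2) (ZMod 2) K) (x : ZMod 2), ev c b x (x + 1) = 0 := by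
    intro b x
    have hb : b = fun j => ∑ p : ZMod 2 × ZMod 2, b j p.2 (p.2 + p.1) • Gm p.1 (Pi.single p.2 (1 : K)) := by
      funext j
      rw [Fintype.sum_prod_type]
      conv_lhs => rw [← sum_Gm (b j)]
      refine Finset.sum_congr rfl fun k _ => ?_
      ext y z
      rw [Matrix.sum_apply, Gm_apply]
      simp only [Matrix.smul_apply, Gm_apply, smul_eq_mul, Pi.single_apply]
      by_cases hz : z = y + k
      · simp [hz]
      · simp [hz]
    rw [← evM_apply, hb, MultilinearMap.map_sum, Matrix.sum_apply]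
    refine Finset.sum_eq_zero fun r _ => ?_
    rw [MultilinearMap.map_smul_univ, Matrix.smul_apply, evM_apply]
    have h1 : ev c (fun j => Gm (r j).1 (Pi.single (r j).2 (1 : K))) =
        Gm (∑ j, (r j).1) (fun a => co c (fun j => (r j).1) a (eu fun j => (r j).2)) :=
      ev_Gm c (fun j => (r j).1) (eu fun j => (r j).2)
    rw [h1, Gm_apply]
    by_cases hs : ∑ j, (r j).1 = 1
    · rw [hcon (fun j => (r j).1) (fun j => (r j).2) x hs]
      simp
    · rw [if_neg (fun h => hs (add_left_cancel h).symm), smul_zero]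
  -- conjugate by a transvection
  obtain ⟨N, hN⟩ : ∃ N : Matrix (ZMod 2) (ZMod 2) K, N = Gm 1 (Pi.single 0 1) := ⟨_, rfl⟩
  have hNN : N * N = 0 := by
    rw [hN, Gm_mul]
    ext x y
    rw [Gm_apply, Matrix.zero_apply]
    have h1 : (Pi.single 0 1 : ZMod 2 → K) x * (Pi.single 0 1 : ZMod 2 → K) (x + 1) = 0 := by
      by_cases hx : x = 0
      · rw [hx, Pi.single_eq_of_ne (by decide : (0 + 1 : ZMod 2) ≠ 0), mul_zero]
      · rw [Pi.single_eq_of_ne hx, zero_mul]
    rw [h1, ite_self]
  have hG : (1 - N) * (1 + N) = 1 := by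
    rw [sub_mul, mul_add, mul_add, hNN]; simp
  have hG' : (1 + N) * (1 - N) = 1 := by
    rw [add_mul, mul_sub, mul_sub, hNN]; simp
  have hd := hdiag (fun j => (1 + N) * a j * (1 - N)) 0
  rw [ev_conj c a _ _ hG hG'] at hd
  obtain ⟨E, hE⟩ : ∃ E, E = ev c a := ⟨_, rfl⟩
  rw [← hE] at hd
  have hE01 : E 0 1 = 0 := by rw [hE]; exact hdiag a 0
  have hE10 : E 1 0 = 0 := by rw [hE]; exact hdiag a 1
  have hexp : (1 + N) * E * (1 - N) = E + N * E - E * N - N * E * N := by
    rw [add_mul, one_mul, mul_sub, mul_one, add_mul]; abel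
  have hz : ∀ f : ZMod 2 → K, ∑ x, f x = f 0 + f 1 := fun f => Fin.sum_univ_two f
  have hN00 : N 0 0 = 0 := by
    rw [hN, Gm_apply, if_neg (by decide)]
  have hN01 : N 0 1 = 1 := by
    rw [hN, Gm_apply, if_pos (by decide)]; simp
  have hN10 : N 1 0 = 0 := by
    rw [hN, Gm_apply, if_pos (by decide)]
    exact Pi.single_eq_of_ne (by decide : (1 : ZMod 2) ≠ 0) _
  have hN11 : N 1 1 = 0 := by
    rw [hN, Gm_apply, if_neg (by decide)]
  have h01 : (0 + 1 : ZMod 2) = 1 := by decide
  rw [hexp, h01] at hd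
  simp only [Matrix.sub_apply, Matrix.add_apply, Matrix.mul_apply, hz, hE01, hE10, hN00, hN01,
    hN10, hN11] at hd
  have hEE : E 1 1 = E 0 0 := by linear_combination hd
  refine h (E 0 0) ?_
  rw [← hE]
  ext x y
  rw [Matrix.scalar_apply, Matrix.diagonal_apply]
  have hx : ∀ x : ZMod 2, x = 0 ∨ x = 1 := by decide
  rcases hx x with rfl | rfl <;> rcases hx y with rfl | rfl
  · rw [if_pos rfl]
  · rw [if_neg (by decide)]; exact hE01
  · rw [if_neg (by decide)]; exact hE10
  · rw [if_pos rfl]; exact hEE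

/-- The function with `u j + 1` for `j ∈ S` and `u j` otherwise. -/
def hyb (u : Fin m → ZMod 2) (S : Finset (Fin m)) : Fin m → ZMod 2 :=
  fun j => if j ∈ S then u j + 1 else u j

theorem co_hyb_expand (c : Perm (Fin m) → K) (g u : Fin m → ZMod 2) (a : ZMod 2)
    (R : Finset (Fin m)) (s : Fin m → K) (hs : ∀ j ∈ R, s j = 0) :
    co c g a (fun j => eu (hyb u R) j + s j • eu (fun j => u j + 1) j) =
      ∑ T : Finset (Fin m), (∏ j ∈ T, s j) * co c g a (eu (hyb u (R ∪ T))) := by
  rw [co_expand]
  refine Finset.sum_congr rfl fun T _ => ?_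
  by_cases hT : ∃ j ∈ T, j ∈ R
  · obtain ⟨j, hjT, hjR⟩ := hT
    rw [Finset.prod_eq_zero hjT (hs j hjR), zero_mul, zero_mul]
  · congr 2
    funext j
    by_cases hj : j ∈ T
    · have h1 : hyb u (R ∪ T) j = u j + 1 := by simp [hyb, hj]
      simp only [hj, if_true, eu, h1]
    · have h1 : hyb u (R ∪ T) j = hyb u R j := by simp [hyb, hj]
      simp only [hj, if_false, eu, h1]

theorem two_core [Infinite K] (c : Perm (Fin m) → K) (a : Fin m → Matrix (ZMod 2) (ZMod 2) K)
    (h : ∀ t : K, ev c a ≠ Matrix.scalar (ZMod 2) t) :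
    ∃ (i : Fin m) (g : Fin m → ZMod 2) (D : Fin m → ZMod 2 → K),
      ∑ j, g j = 1 ∧ (Lam c i g (g i) D D).det ≠ 0 := by
  obtain ⟨g, u, x, hg, hx⟩ := exists_unit_co c a h
  -- the other coefficient
  have hy : co c g (x + 1) (eu u) = 0 := co_unit_unique c g u hg x hx
  have hfull : co c g (x + 1) (eu (hyb u Finset.univ)) ≠ 0 := by
    have h1 : (eu (K := K) (hyb u Finset.univ)) = fun j y => eu (K := K) u j (y + 1) := by
      funext j y
      simp only [eu, hyb, Finset.mem_univ, if_true]
      have hz : ∀ p q : ZMod 2, (p = q + 1) ↔ (p + 1 = q) := by decide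
      by_cases hp : y = u j + 1
      · rw [hp, Pi.single_eq_same, (hz _ _).1 rfl, Pi.single_eq_same]
      · rw [Pi.single_eq_of_ne hp, Pi.single_eq_of_ne fun h => hp ((hz _ _).2 h)]
    rw [h1, co_shift, add_assoc, show (1 + 1 : ZMod 2) = 0 by decide, add_zero]
    exact hx
  -- a minimal subset
  obtain ⟨S, hS, hmin⟩ : ∃ S : Finset (Fin m), co c g (x + 1) (eu (hyb u S)) ≠ 0 ∧
      ∀ T, T ⊂ S → co c g (x + 1) (eu (hyb u T)) = 0 := by
    obtain ⟨S, hS, hmin⟩ := WellFounded.has_min (wellFounded_lt (α := Finset (Fin m)))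
      {S | co c g (x + 1) (eu (hyb u S)) ≠ 0} ⟨_, hfull⟩
    refine ⟨S, hS, fun T hT => ?_⟩
    by_contra hne
    exact hmin T hne hT
  have hempty : hyb u ∅ = u := by funext j; simp [hyb]
  have hSne : S.Nonempty := by
    rw [Finset.nonempty_iff_ne_empty]
    intro h0
    rw [h0, hempty] at hS
    exact hS hy
  obtain ⟨i, hi⟩ := hSne
  let sf : K → Fin m → K := fun s j => if j ∈ S.erase i then s else 0
  let Ds : K → Fin m → ZMod 2 → K := fun s j => eu (hyb u ∅) j + sf s j • eu (fun j => u j + 1) j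
  have hsfi : ∀ s, sf s i = 0 := fun s => by simp [sf]
  -- value of the two columns
  have hcolA : ∀ s y, co c g y (Function.update (Ds s) i (Pi.single (u i) 1)) =
      ∑ T : Finset (Fin m), (∏ j ∈ T, sf s j) * co c g y (eu (hyb u T)) := by
    intro s y
    have h1 : Function.update (Ds s) i (Pi.single (u i) 1) = Ds s := by
      rw [Function.update_eq_self_iff]
      simp only [Ds, hsfi, zero_smul, add_zero, eu, hempty]
    rw [h1, co_hyb_expand c g u y ∅ (sf s) (by simp)]
    simp only [Finset.empty_union]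
  have hcolB : ∀ s y, co c g y (Function.update (Ds s) i (Pi.single (u i + 1) 1)) =
      ∑ T : Finset (Fin m), (∏ j ∈ T, sf s j) * co c g y (eu (hyb u ({i} ∪ T))) := by
    intro s y
    have h1 : Function.update (Ds s) i (Pi.single (u i + 1) 1) =
        fun j => eu (hyb u {i}) j + sf s j • eu (fun j => u j + 1) j := by
      funext j
      by_cases hj : j = i
      · rw [hj, Function.update_self, hsfi, zero_smul, add_zero]
        simp [eu, hyb]
      · rw [Function.update_of_ne hj]
        simp only [Ds, eu, hyb, Finset.notMem_empty, if_false, Finset.mem_singleton, hj]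
    rw [h1, co_hyb_expand c g u y {i} (sf s) (by simpa using hsfi s)]
  have hA1 : ∀ s, co c g (x + 1) (Function.update (Ds s) i (Pi.single (u i) 1)) = 0 := by
    intro s
    rw [hcolA]
    refine Finset.sum_eq_zero fun T _ => ?_
    by_cases hT : T ⊆ S.erase i
    · rw [hmin T (lt_of_le_of_lt hT (Finset.erase_ssubset hi)), mul_zero]
    · obtain ⟨j, hjT, hjS⟩ := Finset.not_subset.1 hT
      rw [Finset.prod_eq_zero hjT (by simp only [sf]; rw [if_neg hjS]), zero_mul]
  have hB1 : ∀ s, co c g (x + 1) (Function.update (Ds s) i (Pi.single (u i + 1) 1)) =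
      s ^ (S.erase i).card * co c g (x + 1) (eu (hyb u S)) := by
    intro s
    rw [hcolB, Finset.sum_eq_single (S.erase i)]
    · have h1 : ∏ j ∈ S.erase i, sf s j = s ^ (S.erase i).card := by
        rw [Finset.prod_congr rfl (g := fun _ => s) fun j hj => by simp only [sf]; rw [if_pos hj],
          Finset.prod_const]
      have h2 : ({i} ∪ S.erase i : Finset (Fin m)) = S := by
        rw [← Finset.insert_eq, Finset.insert_erase hi]
      rw [h1, h2]
    · intro T _ hT
      by_cases hTS : T ⊆ S.erase i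
      · have h1 : {i} ∪ T ⊂ S := by
          rw [← Finset.insert_eq]
          refine lt_of_le_of_ne (Finset.insert_subset hi (hTS.trans (Finset.erase_subset _ _))) ?_
          intro h2
          refine hT ?_
          rw [← h2, Finset.erase_insert]
          intro h3
          exact Finset.notMem_erase i S (hTS h3)
        rw [hmin _ h1, mul_zero]
      · obtain ⟨j, hjT, hjS⟩ := Finset.not_subset.1 hTS
        rw [Finset.prod_eq_zero hjT (by simp only [sf]; rw [if_neg hjS]), zero_mul]
    · intro h1; exact absurd (Finset.mem_univ _) h1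
  -- choose `s`
  obtain ⟨s, hs0, hsA⟩ : ∃ s : K, s ≠ 0 ∧
      co c g x (Function.update (Ds s) i (Pi.single (u i) 1)) ≠ 0 := by
    have hpoly : IsPoly (J := Unit) (fun y : Unit → K =>
        co c g x (Function.update (Ds (y ())) i (Pi.single (u i) 1))) := by
      simp only [hcolA]
      refine IsPoly.sum _ fun T _ => IsPoly.mul (IsPoly.prod _ fun j _ => ?_) (IsPoly.const _)
      exact IsPoly.ite _ (IsPoly.coord ()) (IsPoly.const _)
    obtain ⟨y, hy⟩ := exists_common (J := Unit) (K := K) (ι := Bool) Finset.univ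
      (P := fun b y => if b = true then y () else
        co c g x (Function.update (Ds (y ())) i (Pi.single (u i) 1))) (by
        intro b _
        exact IsPoly.ite _ (IsPoly.coord ()) hpoly) (by
        intro b _
        cases b
        · refine ⟨fun _ => 0, ?_⟩
          simp only [Bool.false_eq_true, if_false]
          rw [hcolA, Finset.sum_eq_single ∅]
          · simpa [hempty] using hx
          · intro T _ hT
            obtain ⟨j, hj⟩ := Finset.nonempty_iff_ne_empty.2 hT
            rw [Finset.prod_eq_zero hj (by simp [sf]), zero_mul]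
          · intro h1; exact absurd (Finset.mem_univ _) h1
        · exact ⟨fun _ => 1, by simp⟩)
    exact ⟨y (), by simpa using hy true (Finset.mem_univ _),
      by simpa using hy false (Finset.mem_univ _)⟩
  refine ⟨i, g, Ds s, hg, ?_⟩
  intro hdet
  obtain ⟨v, hv, hv0⟩ := Matrix.exists_mulVec_eq_zero_iff.2 hdet
  -- decompose `v`
  have hvd : v = v (u i) • Pi.single (u i) (1 : K) + v (u i + 1) • Pi.single (u i + 1) (1 : K) := by
    funext y
    have hy2 : ∀ p q : ZMod 2, p = q ∨ p = q + 1 := by decide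
    have hne : ∀ p : ZMod 2, p + 1 ≠ p := by decide
    rcases hy2 y (u i) with h1 | h1
    · rw [h1]; simp [Pi.single_eq_of_ne (hne (u i)).symm]
    · rw [h1]; simp [Pi.single_eq_of_ne (hne (u i))]
  have hcomp : ∀ y, v (u i) * co c g y (Function.update (Ds s) i (Pi.single (u i) 1)) +
      v (u i + 1) * co c g y (Function.update (Ds s) i (Pi.single (u i + 1) 1)) = 0 := by
    intro y
    have h1 := congrFun hv0 y
    rw [hvd, Matrix.mulVec_add, Matrix.mulVec_smul, Matrix.mulVec_smul, Pi.add_apply,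
      Pi.smul_apply, Pi.smul_apply, Lam_mulVec, Lam_mulVec] at h1
    simpa using h1
  have h1 := hcomp (x + 1)
  rw [hA1, hB1, mul_zero, zero_add] at h1
  have hv1 : v (u i + 1) = 0 := by
    rcases mul_eq_zero.1 h1 with h2 | h2
    · exact h2
    · exact absurd h2 (mul_ne_zero (pow_ne_zero _ hs0) hS)
  have h2 := hcomp x
  rw [hv1, zero_mul, add_zero] at h2
  have hv2 : v (u i) = 0 := by
    rcases mul_eq_zero.1 h2 with h3 | h3
    · exact h3
    · exact absurd h3 hsA
  exact hv (by rw [hvd, hv1, hv2]; simp)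

end MLI
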