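import Pool.Agent.Work.MP_05d08f_al.TwoCore

set_option autoImplicit false

/-!
# MP_05d08f_al: generic families of `2 × 2` blocks; zero diagonal matrices of even size are values
-/

namespace MLI

open Matrix Equiv

variable {K : Type*} [Field K] {m : ℕ}

theorem two_gen [Infinite K] {B : Type*} [Fintype B] [DecidableEq B] (c : Perm (Fin m) → K)
    (i : Fin m) (g : Fin m → ZMod 2) (D0 : Fin m → ZMod 2 → K)
    (h : (Lam c i g (g i) D0 D0).det ≠ 0) :
    ∃ D : B → Fin m → ZMod 2 → K, (∀ p, (Lam c i g (g i) (D p) (D p)).det ≠ 0) ∧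
      ∀ p q, p ≠ q → ∀ c0, (Lam c i g c0 (D p) (D q)).det ≠ 0 := by
  obtain ⟨x, hx⟩ := exists_common (J := B × Fin m × ZMod 2) (K := K) (ι := B × B × ZMod 2)
    Finset.univ
    (P := fun t x => if t.1 = t.2.1 then
        (Lam c i g (g i) (fun j a => x (t.1, j, a)) (fun j a => x (t.1, j, a))).det
      else (Lam c i g t.2.2 (fun j a => x (t.1, j, a)) (fun j a => x (t.2.1, j, a))).det) (by
      intro t _
      exact IsPoly.ite _ (IsPoly.Lam_det c i g _ (fun j a => IsPoly.coord _)
        (fun j a => IsPoly.coord _)) (IsPoly.Lam_det c i g _ (fun j a => IsPoly.coord _)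
        (fun j a => IsPoly.coord _))) (by
      rintro ⟨p, q, c0⟩ _
      by_cases hpq : p = q
      · refine ⟨fun y => D0 y.2.1 y.2.2, ?_⟩
        simp only [hpq, if_true]
        exact h
      · have h2 : ∀ a b : ZMod 2, a = b ∨ a = b + 1 := by decide
        rcases h2 c0 (g i) with h0 | h0
        · refine ⟨fun y => D0 y.2.1 y.2.2, ?_⟩
          simp only [hpq, if_false, h0]
          exact h
        · refine ⟨fun y => if y.1 = p then D0 y.2.1 y.2.2 else D0 y.2.1 (y.2.2 + 1), ?_⟩
          simp only [hpq, if_false, if_true, h0, if_neg (Ne.symm hpq)]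
          rw [Lam_shift]
          have h3 : ∀ x : ZMod 2, x + 1 + 1 = x := by decide
          simp only [h3]
          exact h)
  refine ⟨fun p j a => x (p, j, a), fun p => ?_, fun p q hpq c0 => ?_⟩
  · simpa using hx (p, p, 0) (Finset.mem_univ _)
  · have h1 := hx (p, q, c0) (Finset.mem_univ _)
    simp only [if_neg hpq] at h1
    exact h1

/-- Even size: every matrix with zero diagonal is a value. -/
theorem even_hit [Infinite K] (c : Perm (Fin m) → K) (b : Fin m → Matrix (ZMod 2) (ZMod 2) K)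
    (hb : ∀ t : K, ev c b ≠ Matrix.scalar (ZMod 2) t) {k n : ℕ} (hn : n = k * 2)
    (A : Matrix (Fin n) (Fin n) K) (hA : ∀ x, A x x = 0) :
    ∃ a : Fin m → Matrix (Fin n) (Fin n) K, ev c a = A := by
  obtain ⟨i, g, D0, hg, hdet⟩ := two_core c b hb
  obtain ⟨D, hD, hD'⟩ := two_gen (B := Fin k) c i g D0 hdet
  let e : (Σ _ : Fin k, ZMod 2) ≃ Fin n := Fintype.equivOfCardEq (by
    rw [Fintype.card_sigma]; simp [ZMod.card, hn])
  obtain ⟨a, ha⟩ := hit_of_blocks (s := fun _ : Fin k => ZMod 2) c i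
    (fun j p => Gm (g j) (D p j)) (A.submatrix e e) (by
    intro p q
    by_cases hpq : p = q
    · subst hpq
      obtain ⟨ζ, hζ⟩ := Phi_Gm_surj c i g (g i) (D p) (D p) (hD p)
        (fun x => A (e ⟨p, x⟩) (e ⟨p, x + 1⟩))
      refine ⟨Gm (g i) ζ, ?_⟩
      rw [hζ, hg, show g i + 1 - g i = 1 by abel]
      ext x y
      rw [Gm_apply]
      have h2 : ∀ a b : ZMod 2, b = a + 1 ∨ b = a := by decide
      have h3 : ∀ a : ZMod 2, a ≠ a + 1 := by decide
      rcases h2 x y with h | h
      · rw [if_pos h, h]; rfl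
      · rw [h, if_neg (h3 x)]
        exact (hA _).symm
    · exact Phi_surj_of_Lam c i g (D p) (D q) (hD' p q hpq) _)
  refine ⟨fun j => (a j).submatrix e.symm e.symm, ?_⟩
  rw [ev_submatrix, ha]
  ext x y
  simp

end MLI
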